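import Mathlib

/-!
Statements used in the proof that coarse Lipschitz subspaces of quasi-reflexive asymptotically
uniformly smooth spaces are quasi-reflexive.
-/
set_option autoImplicit false
open Filter Topology

namespace Pool.Agent.W696.QR

/-- Goldstine's theorem with ultrafilters -/
def S_goldstine : Prop :=
  ∀ (X : Type) [NormedAddCommGroup X] [NormedSpace ℝ X] (a : StrongDual ℝ (StrongDual ℝ X)),
    ∃ U : Ultrafilter X, (∀ᶠ x in (U : Filter X), ‖x‖ ≤ ‖a‖ + 1) ∧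
      ∀ φ : StrongDual ℝ X, Tendsto (fun x => φ x) (U : Filter X) (𝓝 (a φ))

/-- asymptotic uniform smoothness of the norm -/
def AUSn (Y : Type) [NormedAddCommGroup Y] [NormedSpace ℝ Y] : Prop :=
  ∀ ε : ℝ, ε > 0 → ∃ δ : ℝ, δ > 0 ∧ ∀ t : ℝ, 0 < t → t < δ →
    ∀ x : Y, ‖x‖ = 1 → ∃ n : ℕ, ∃ φ : Fin n → StrongDual ℝ Y,
      ∀ y : Y, (∀ i, φ i y = 0) → ‖y‖ ≤ t → ‖x + y‖ ≤ 1 + ε * t

/-- adding a vector which is almost weakly null to a vector of an asymptotically uniformly smooth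
space -/
def S_aus : Prop :=
  ∀ (Y : Type) [NormedAddCommGroup Y] [NormedSpace ℝ Y], AUSn Y → ∀ ε : ℝ, 0 < ε →
    ∃ R : ℝ, 0 < R ∧ ∀ (Z : Type) (U : Ultrafilter Z) (g : Z → Y) (r d : ℝ), 0 ≤ d →
      (∀ᶠ z in (U : Filter Z), ‖g z‖ ≤ r) →
      (∀ φ : StrongDual ℝ Y, ‖φ‖ ≤ 1 → ∀ l : ℝ,
        Tendsto (fun z => φ (g z)) (U : Filter Z) (𝓝 l) → l ≤ d) →
      ∀ (y : Y) (κ : ℝ), 0 < κ →
        ∀ᶠ z in (U : Filter Z), ‖y + g z‖ ≤ max ‖y‖ (R * r) + ε * r + d + κ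

/-- the bidual of a quasi-reflexive space -/
def S_split : Prop :=
  ∀ (Y : Type) [NormedAddCommGroup Y] [NormedSpace ℝ Y] [CompleteSpace Y],
    (∃ n : ℕ, ∃ ψ : Fin n → StrongDual ℝ (StrongDual ℝ Y),
      ∀ z : StrongDual ℝ (StrongDual ℝ Y), ∃ y : Y, ∃ c : Fin n → ℝ,
        z = NormedSpace.inclusionInDoubleDual ℝ Y y + ∑ i, c i • ψ i) →
    ∃ (m : ℕ) (Q : StrongDual ℝ (StrongDual ℝ Y) →L[ℝ] (Fin m → ℝ))
      (σ : (Fin m → ℝ) →L[ℝ] StrongDual ℝ (StrongDual ℝ Y))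
      (P : StrongDual ℝ (StrongDual ℝ Y) →L[ℝ] Y),
      (∀ z, z = NormedSpace.inclusionInDoubleDual ℝ Y (P z) + σ (Q z)) ∧
      (∀ y, P (NormedSpace.inclusionInDoubleDual ℝ Y y) = y) ∧
      (∀ y, Q (NormedSpace.inclusionInDoubleDual ℝ Y y) = 0)

/-- stationary slowly varying sequences in an infinite dimensional normed space -/
def S_seq : Prop :=
  ∀ (Q : Type) [NormedAddCommGroup Q] [NormedSpace ℝ Q], ¬ FiniteDimensional ℝ Q →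
    ∀ (r n : ℕ), 1 ≤ r → ∀ κ : ℝ, 0 < κ →
      ∃ ν : Ultrafilter (ℕ → Q),
        (∀ᶠ q in (ν : Filter (ℕ → Q)), ∀ i ≤ n, ‖q i‖ ≤ 1 + κ ∧
          ‖q (i + 1) - q i‖ ≤ 4 / r + κ ∧ 1 - κ ≤ ‖q i - q (i + 2 * r)‖) ∧
        ∀ S : Set (ℕ → Q), (∀ q q' : ℕ → Q, (∀ i ≤ n, q i = q' i) → q ∈ S → q' ∈ S) →
          ((∀ᶠ q in (ν : Filter (ℕ → Q)), q ∈ S) ↔
            ∀ᶠ q in (ν : Filter (ℕ → Q)), (fun i => q (i + 1)) ∈ S)

end Pool.Agent.W696.QR
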