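import Mathlib
import Pool.Agent.W696.QR.Defs

/-!
The monoid of ultrafilters on an additive monoid, and limits along ultrafilters.
-/
set_option autoImplicit false
open Filter Topology

namespace Pool.Agent.W696.QR

/-- ultrafilters, as a monoid under convolution -/
@[ext] structure UB (Z : Type) where
  /-- the ultrafilter -/
  u : Ultrafilter Z

namespace UB

variable {Z Z' Z'' : Type}

instance [AddMonoid Z] : Zero (UB Z) := ⟨⟨pure 0⟩⟩
instance [AddMonoid Z] : Add (UB Z) := ⟨fun U V => ⟨U.u.bind fun a => V.u.map (a + ·)⟩⟩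

lemma ev_add [AddMonoid Z] (U V : UB Z) (p : Z → Prop) :
    (∀ᶠ z in ((U + V).u : Filter Z), p z) ↔
      ∀ᶠ a in (U.u : Filter Z), ∀ᶠ b in (V.u : Filter Z), p (a + b) := Iff.rfl

lemma ev_zero [AddMonoid Z] (p : Z → Prop) :
    (∀ᶠ z in (((0 : UB Z)).u : Filter Z), p z) ↔ p 0 := Iff.rfl

lemma ext_ev {U V : UB Z} (h : ∀ p : Z → Prop, (∀ᶠ z in (U.u : Filter Z), p z) ↔
    ∀ᶠ z in (V.u : Filter Z), p z) : U = V := by
  apply UB.ext
  apply Ultrafilter.ext
  intro s
  exact h (fun z => z ∈ s)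

instance [AddMonoid Z] : AddMonoid (UB Z) where
  add_assoc U V W := ext_ev fun p => by
    rw [ev_add, ev_add, ev_add]
    simp only [ev_add, add_assoc]
  zero_add U := ext_ev fun p => by
    rw [ev_add, ev_zero]
    simp only [zero_add]
  add_zero U := ext_ev fun p => by
    rw [ev_add]
    simp only [ev_zero, add_zero]
  nsmul := nsmulRec

/-- image -/
def map (f : Z → Z') (U : UB Z) : UB Z' := ⟨U.u.map f⟩

lemma ev_map (f : Z → Z') (U : UB Z) (p : Z' → Prop) :
    (∀ᶠ z in ((U.map f).u : Filter Z'), p z) ↔ ∀ᶠ z in (U.u : Filter Z), p (f z) := Iff.rfl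

lemma map_map (f : Z → Z') (g : Z' → Z'') (U : UB Z) :
    (U.map f).map g = U.map (fun z => g (f z)) := ext_ev fun _ => Iff.rfl

lemma map_id (U : UB Z) : U.map (fun z => z) = U := ext_ev fun _ => Iff.rfl

lemma map_zero_fun [AddMonoid Z'] (U : UB Z) : U.map (fun _ => (0 : Z')) = 0 := ext_ev fun p => by
  rw [ev_map, ev_zero]
  simp

lemma map_add [AddMonoid Z] [AddMonoid Z'] (f : Z →+ Z') (U V : UB Z) :
    (U + V).map f = U.map f + V.map f := ext_ev fun p => by
  rw [ev_map, ev_add, ev_add, ev_map]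
  simp only [ev_map, _root_.map_add]

lemma map_zero [AddMonoid Z] [AddMonoid Z'] (f : Z →+ Z') :
    (0 : UB Z).map f = 0 := ext_ev fun p => by
  rw [ev_map, ev_zero, ev_zero, _root_.map_zero]

/-- finite sums of consecutive terms -/
def ch [AddMonoid Z] (g : ℕ → UB Z) : ℕ → ℕ → UB Z
  | _, 0 => 0
  | a, (L + 1) => g a + ch g (a + 1) L

section ch

variable [AddMonoid Z] [AddMonoid Z'] (g : ℕ → UB Z)

@[simp] lemma ch_zero (a : ℕ) : ch g a 0 = 0 := rfl

lemma ch_succ (a L : ℕ) : ch g a (L + 1) = g a + ch g (a + 1) L := rfl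

lemma ch_one (a : ℕ) : ch g a 1 = g a := by rw [ch_succ, ch_zero, add_zero]

lemma ch_add (a L M : ℕ) : ch g a (L + M) = ch g a L + ch g (a + L) M := by
  induction L generalizing a with
  | zero => rw [ch_zero, zero_add, zero_add, add_zero]
  | succ L ih =>
    rw [show L + 1 + M = (L + M) + 1 by ring, ch_succ, ih, ch_succ,
      show a + 1 + L = a + (L + 1) by ring, add_assoc (g a)]

lemma ch_succ' (a L : ℕ) : ch g a (L + 1) = ch g a L + g (a + L) := by
  rw [ch_add, ch_one]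

lemma ch_congr {g g' : ℕ → UB Z} (a L : ℕ) (h : ∀ i, a ≤ i → i < a + L → g i = g' i) :
    ch g a L = ch g' a L := by
  induction L generalizing a with
  | zero => rfl
  | succ L ih =>
    rw [ch_succ, ch_succ, h a le_rfl (by omega), ih (a + 1) fun i hi1 hi2 => h i (by omega) (by omega)]

lemma ch_shift (a b L : ℕ) : ch (fun i => g (i + b)) a L = ch g (a + b) L := by
  induction L generalizing a with
  | zero => rfl
  | succ L ih =>
    rw [ch_succ, ch_succ, ih (a + 1), show a + 1 + b = a + b + 1 by ring]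

lemma ch_map (f : Z →+ Z') (a L : ℕ) : (ch g a L).map f = ch (fun i => (g i).map f) a L := by
  induction L generalizing a with
  | zero => exact map_zero f
  | succ L ih => rw [ch_succ, ch_succ, map_add, ih]

lemma ch_zero_fun (a L : ℕ) : ch (fun _ => (0 : UB Z)) a L = 0 := by
  induction L generalizing a with
  | zero => rfl
  | succ L ih => rw [ch_succ, ih, add_zero]

end ch

end UB

section lm

variable {Z : Type} {V : Type} [NormedAddCommGroup V] [ProperSpace V]

/-- limits along ultrafilters -/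
noncomputable def lm (U : UB Z) (f : Z → V) : V := limUnder (U.u : Filter Z) f

/-- boundedness along an ultrafilter -/
def Bf (U : UB Z) (f : Z → V) : Prop := ∃ C : ℝ, ∀ᶠ z in (U.u : Filter Z), ‖f z‖ ≤ C

omit [ProperSpace V] in
lemma lm_eq {U : UB Z} {f : Z → V} {v : V} (h : Tendsto f (U.u : Filter Z) (𝓝 v)) : lm U f = v :=
  h.limUnder_eq

lemma lm_spec {U : UB Z} {f : Z → V} (h : Bf U f) :
    Tendsto f (U.u : Filter Z) (𝓝 (lm U f)) := by
  obtain ⟨C, hC⟩ := h
  have hc : IsCompact (Metric.closedBall (0 : V) C) := isCompact_closedBall _ _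
  have hm : Tendsto f (U.u : Filter Z) (𝓟 (Metric.closedBall (0 : V) C)) := by
    rw [Filter.tendsto_principal]
    filter_upwards [hC] with z hz
    rwa [mem_closedBall_zero_iff]
  obtain ⟨v, -, hv⟩ := hc.ultrafilter_le_nhds (U.u.map f) hm
  have h1 : Tendsto f (U.u : Filter Z) (𝓝 v) := hv
  rwa [lm_eq h1]

lemma lm_norm_le {U : UB Z} {f : Z → V} {C : ℝ} (h : ∀ᶠ z in (U.u : Filter Z), ‖f z‖ ≤ C) :
    ‖lm U f‖ ≤ C := le_of_tendsto (lm_spec ⟨C, h⟩).norm h

lemma lm_add {U : UB Z} {f g : Z → V} (hf : Bf U f) (hg : Bf U g) :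
    lm U (fun z => f z + g z) = lm U f + lm U g := lm_eq ((lm_spec hf).add (lm_spec hg))

lemma lm_sub {U : UB Z} {f g : Z → V} (hf : Bf U f) (hg : Bf U g) :
    lm U (fun z => f z - g z) = lm U f - lm U g := lm_eq ((lm_spec hf).sub (lm_spec hg))

lemma lm_norm {U : UB Z} {f : Z → V} (hf : Bf U f) : lm U (fun z => ‖f z‖) = ‖lm U f‖ :=
  lm_eq (lm_spec hf).norm

omit [ProperSpace V] in
lemma lm_const (U : UB Z) (v : V) : lm U (fun _ => v) = v := lm_eq tendsto_const_nhds

omit [ProperSpace V] in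
lemma lm_congr {U : UB Z} {f g : Z → V} (h : ∀ᶠ z in (U.u : Filter Z), f z = g z) :
    lm U f = lm U g := by
  unfold lm limUnder
  rw [Filter.map_congr h]

omit [ProperSpace V] in
lemma lm_map {Z' : Type} (φ : Z → Z') (U : UB Z) (f : Z' → V) :
    lm (U.map φ) f = lm U (fun z => f (φ z)) := rfl

omit [ProperSpace V] in
lemma lm_zero' {Z : Type} [AddMonoid Z] (f : Z → V) : lm (0 : UB Z) f = f 0 := by
  apply lm_eq
  exact tendsto_pure_nhds f 0

omit [ProperSpace V] in
lemma Bf.norm {U : UB Z} {f : Z → V} (hf : Bf U f) : Bf U (fun z => ‖f z‖) := by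
  obtain ⟨C, hC⟩ := hf
  exact ⟨C, by filter_upwards [hC] with z hz; rwa [norm_norm]⟩

omit [ProperSpace V] in
lemma Bf.add {U : UB Z} {f g : Z → V} (hf : Bf U f) (hg : Bf U g) : Bf U (fun z => f z + g z) := by
  obtain ⟨C, hC⟩ := hf
  obtain ⟨D, hD⟩ := hg
  exact ⟨C + D, by filter_upwards [hC, hD] with z h1 h2; exact (norm_add_le _ _).trans (add_le_add h1 h2)⟩

omit [ProperSpace V] in
lemma Bf.sub {U : UB Z} {f g : Z → V} (hf : Bf U f) (hg : Bf U g) : Bf U (fun z => f z - g z) := by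
  obtain ⟨C, hC⟩ := hf
  obtain ⟨D, hD⟩ := hg
  exact ⟨C + D, by filter_upwards [hC, hD] with z h1 h2; exact (norm_sub_le _ _).trans (add_le_add h1 h2)⟩

omit [ProperSpace V] in
lemma Bf.const (U : UB Z) (v : V) : Bf U (fun _ => v) := ⟨‖v‖, by simp⟩

/-- real limits are monotone -/
lemma lm_mono {U : UB Z} {f g : Z → ℝ} (hf : Bf U f) (hg : Bf U g)
    (h : ∀ᶠ z in (U.u : Filter Z), f z ≤ g z) : lm U f ≤ lm U g :=
  le_of_tendsto_of_tendsto (lm_spec hf) (lm_spec hg) h

lemma lm_max {U : UB Z} {f g : Z → ℝ} (hf : Bf U f) (hg : Bf U g) :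
    lm U (fun z => max (f z) (g z)) = max (lm U f) (lm U g) := lm_eq ((lm_spec hf).max (lm_spec hg))

lemma lm_mul_left {U : UB Z} {f : Z → ℝ} (c : ℝ) (hf : Bf U f) :
    lm U (fun z => c * f z) = c * lm U f := lm_eq ((lm_spec hf).const_mul c)

lemma Bf.mul_left {U : UB Z} {f : Z → ℝ} (c : ℝ) (hf : Bf U f) : Bf U (fun z => c * f z) := by
  obtain ⟨C, hC⟩ := hf
  refine ⟨|c| * C, ?_⟩
  filter_upwards [hC] with z hz
  rw [norm_mul, Real.norm_eq_abs]
  gcongr

lemma Bf.max {U : UB Z} {f g : Z → ℝ} (hf : Bf U f) (hg : Bf U g) :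
    Bf U (fun z => Max.max (f z) (g z)) := by
  obtain ⟨C, hC⟩ := hf
  obtain ⟨D, hD⟩ := hg
  refine ⟨Max.max C D, ?_⟩
  filter_upwards [hC, hD] with z h1 h2
  rw [Real.norm_eq_abs] at *
  rcases max_choice (f z) (g z) with h | h
  · rw [h]; exact h1.trans (le_max_left _ _)
  · rw [h]; exact h2.trans (le_max_right _ _)

omit [ProperSpace V] in
/-- limits along sums -/
lemma tendsto_conv [AddMonoid Z] {U W : UB Z} {f : Z → V} {g : Z → V} {v : V}
    (h1 : ∀ᶠ a in (U.u : Filter Z), Tendsto (fun b => f (a + b)) (W.u : Filter Z) (𝓝 (g a)))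
    (h2 : Tendsto g (U.u : Filter Z) (𝓝 v)) :
    Tendsto f ((U + W).u : Filter Z) (𝓝 v) := by
  rw [Metric.tendsto_nhds]
  intro ε hε
  rw [UB.ev_add]
  filter_upwards [h1, (Metric.tendsto_nhds.1 h2) (ε / 2) (by positivity)] with a ha1 ha2
  filter_upwards [(Metric.tendsto_nhds.1 ha1) (ε / 2) (by positivity)] with b hb
  calc dist (f (a + b)) v ≤ dist (f (a + b)) (g a) + dist (g a) v := dist_triangle _ _ _
    _ < ε / 2 + ε / 2 := add_lt_add hb ha2
    _ = ε := by ring

omit [ProperSpace V] in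
lemma Bf.conv [AddMonoid Z] {U W : UB Z} {f : Z → V} (h : Bf (U + W) f) :
    ∀ᶠ a in (U.u : Filter Z), Bf W (fun b => f (a + b)) := by
  obtain ⟨C, hC⟩ := h
  rw [UB.ev_add] at hC
  filter_upwards [hC] with a ha
  exact ⟨C, ha⟩

lemma Bf.conv_lm [AddMonoid Z] {U W : UB Z} {f : Z → V} (h : Bf (U + W) f) :
    Bf U (fun a => lm W (fun b => f (a + b))) := by
  obtain ⟨C, hC⟩ := h
  rw [UB.ev_add] at hC
  refine ⟨C, ?_⟩
  filter_upwards [hC] with a ha
  exact lm_norm_le ha

lemma lm_conv [AddMonoid Z] {U W : UB Z} {f : Z → V} (h : Bf (U + W) f) :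
    lm (U + W) f = lm U (fun a => lm W (fun b => f (a + b))) := by
  apply lm_eq
  refine tendsto_conv (g := fun a => lm W (fun b => f (a + b))) ?_ (lm_spec h.conv_lm)
  filter_upwards [h.conv] with a ha
  exact lm_spec ha

end lm

section wl

variable {Z : Type} {G : Type} [NormedAddCommGroup G] [NormedSpace ℝ G]

/-- weak limits in dual spaces -/
lemma exists_wl (U : UB Z) (f : Z → StrongDual ℝ G) (h : Bf U f) :
    ∃ v : StrongDual ℝ G, (∀ g : G, Tendsto (fun z => f z g) (U.u : Filter Z) (𝓝 (v g))) ∧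
      ∀ C : ℝ, (∀ᶠ z in (U.u : Filter Z), ‖f z‖ ≤ C) → ‖v‖ ≤ C := by
  obtain ⟨C, hC⟩ := h
  have hb : ∀ g : G, Bf U (fun z => f z g) := by
    intro g
    refine ⟨C * ‖g‖, ?_⟩
    filter_upwards [hC] with z hz
    exact ((f z).le_opNorm g).trans (by gcongr)
  have hC0 : 0 ≤ C := by
    obtain ⟨z, hz⟩ := hC.exists
    exact (norm_nonneg _).trans hz
  let v0 : G →ₗ[ℝ] ℝ :=
    { toFun := fun g => lm U (fun z => f z g)
      map_add' := fun g g' => by
        have := lm_add (hb g) (hb g')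
        simpa using this
      map_smul' := fun c g => by
        have := lm_mul_left c (hb g)
        simpa using this }
  have hv0 : ∀ D : ℝ, (∀ᶠ z in (U.u : Filter Z), ‖f z‖ ≤ D) → ∀ g, ‖v0 g‖ ≤ D * ‖g‖ := by
    intro D hD g
    refine lm_norm_le ?_
    filter_upwards [hD] with z hz
    exact ((f z).le_opNorm g).trans (by gcongr)
  refine ⟨v0.mkContinuous C (hv0 C hC), fun g => lm_spec (hb g), fun D hD => ?_⟩
  have hD0 : 0 ≤ D := by
    obtain ⟨z, hz⟩ := hD.exists
    exact (norm_nonneg _).trans hz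
  exact ContinuousLinearMap.opNorm_le_bound _ hD0 (hv0 D hD)

open Classical in
/-- the weak limit -/
noncomputable def wl (U : UB Z) (f : Z → StrongDual ℝ G) : StrongDual ℝ G :=
  if h : Bf U f then Classical.choose (exists_wl U f h) else 0

lemma wl_spec {U : UB Z} {f : Z → StrongDual ℝ G} (h : Bf U f) (g : G) :
    Tendsto (fun z => f z g) (U.u : Filter Z) (𝓝 (wl U f g)) := by
  rw [wl, dif_pos h]
  exact (Classical.choose_spec (exists_wl U f h)).1 g

lemma wl_norm_le {U : UB Z} {f : Z → StrongDual ℝ G} {C : ℝ}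
    (h : ∀ᶠ z in (U.u : Filter Z), ‖f z‖ ≤ C) : ‖wl U f‖ ≤ C := by
  have hb : Bf U f := ⟨C, h⟩
  rw [wl, dif_pos hb]
  exact (Classical.choose_spec (exists_wl U f hb)).2 C h

lemma wl_eq {U : UB Z} {f : Z → StrongDual ℝ G} (h : Bf U f) {v : StrongDual ℝ G}
    (hv : ∀ g, Tendsto (fun z => f z g) (U.u : Filter Z) (𝓝 (v g))) : wl U f = v := by
  ext g
  exact tendsto_nhds_unique (wl_spec h g) (hv g)

end wl

end Pool.Agent.W696.QR
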