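import Mathlib
import Pool.Agent.W696.QR.UB

/-!
Bounded laws, weak limits of laws, and the conditional values of a coarse Lipschitz map.
-/
set_option autoImplicit false
open Filter Topology

namespace Pool.Agent.W696.QR

section bd

variable {X X' : Type} [NormedAddCommGroup X] [NormedAddCommGroup X']

/-- bounded laws -/
def Bd (U : UB X) (ρ : ℝ) : Prop := ∀ᶠ x in (U.u : Filter X), ‖x‖ ≤ ρ

/-- bounded laws -/
def IsB (U : UB X) : Prop := ∃ ρ : ℝ, Bd U ρ

lemma Bd.isB {U : UB X} {ρ : ℝ} (h : Bd U ρ) : IsB U := ⟨ρ, h⟩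

lemma Bd.nonneg {U : UB X} {ρ : ℝ} (h : Bd U ρ) : 0 ≤ ρ := by
  obtain ⟨x, hx⟩ := Filter.Eventually.exists h
  exact (norm_nonneg _).trans hx

lemma Bd.mono {U : UB X} {ρ ρ' : ℝ} (h : Bd U ρ) (hρ : ρ ≤ ρ') : Bd U ρ' := by
  unfold Bd at *
  filter_upwards [h] with x hx
  exact hx.trans hρ

lemma Bd.zero : Bd (0 : UB X) 0 := by
  unfold Bd
  rw [UB.ev_zero, norm_zero]

lemma Bd.add {U V : UB X} {ρ ρ' : ℝ} (hU : Bd U ρ) (hV : Bd V ρ') : Bd (U + V) (ρ + ρ') := by
  unfold Bd at *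
  rw [UB.ev_add]
  filter_upwards [hU] with x hx
  filter_upwards [hV] with y hy
  exact (norm_add_le _ _).trans (add_le_add hx hy)

lemma Bd.map {U : UB X} {ρ : ℝ} (hU : Bd U ρ) (f : X → X') {ρ' : ℝ}
    (hf : ∀ x, ‖x‖ ≤ ρ → ‖f x‖ ≤ ρ') : Bd (U.map f) ρ' := by
  unfold Bd at *
  rw [UB.ev_map]
  filter_upwards [hU] with x hx
  exact hf x hx

lemma Bd.ch {g : ℕ → UB X} {ρ : ℝ} (hg : ∀ i, Bd (g i) ρ) (a L : ℕ) :
    Bd (UB.ch g a L) (L * ρ) := by
  induction L generalizing a with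
  | zero => rw [UB.ch_zero, Nat.cast_zero, zero_mul]; exact Bd.zero
  | succ L ih =>
    rw [UB.ch_succ]
    have := (hg a).add (ih (a + 1))
    refine this.mono (le_of_eq ?_)
    push_cast
    ring

lemma IsB.zero : IsB (0 : UB X) := ⟨0, Bd.zero⟩

lemma IsB.add {U V : UB X} (hU : IsB U) (hV : IsB V) : IsB (U + V) := by
  obtain ⟨ρ, h⟩ := hU
  obtain ⟨ρ', h'⟩ := hV
  exact ⟨ρ + ρ', h.add h'⟩

lemma IsB.ch {g : ℕ → UB X} (hg : ∀ i, IsB (g i)) (a L : ℕ) : IsB (UB.ch g a L) := by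
  induction L generalizing a with
  | zero => exact IsB.zero
  | succ L ih => exact (hg a).add (ih (a + 1))

lemma IsB.map {U : UB X} (hU : IsB U) (f : X → X') (D : ℝ) (hf : ∀ x, ‖f x‖ ≤ D * ‖x‖) :
    IsB (U.map f) := by
  obtain ⟨ρ, h⟩ := hU
  refine ⟨|D| * ρ, h.map f fun x hx => (hf x).trans ?_⟩
  calc D * ‖x‖ ≤ |D| * ‖x‖ := by gcongr; exact le_abs_self D
    _ ≤ |D| * ρ := by gcongr

lemma IsB.bf_norm {U : UB X} (hU : IsB U) (v : X) : Bf U (fun x => ‖v + x‖) := by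
  obtain ⟨ρ, h⟩ := hU
  refine ⟨‖v‖ + ρ, ?_⟩
  unfold Bd at h
  filter_upwards [h] with x hx
  rw [norm_norm]
  exact (norm_add_le _ _).trans (by gcongr)

/-- the norm function of a law -/
noncomputable def nf (U : UB X) (v : X) : ℝ := lm U (fun x => ‖v + x‖)

lemma nf_nonneg {U : UB X} (hU : IsB U) (v : X) : 0 ≤ nf U v :=
  ge_of_tendsto (lm_spec (hU.bf_norm v)) (Filter.Eventually.of_forall fun _ => norm_nonneg _)

lemma nf_zero (v : X) : nf (0 : UB X) v = ‖v‖ := by
  unfold nf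
  rw [lm_zero', add_zero]

lemma nf_le {U : UB X} {ρ : ℝ} (hU : Bd U ρ) (v : X) : nf U v ≤ ‖v‖ + ρ := by
  refine le_of_tendsto (lm_spec (hU.isB.bf_norm v)) ?_
  unfold Bd at hU
  filter_upwards [hU] with x hx
  exact (norm_add_le _ _).trans (by gcongr)

lemma nf_sub_le {U : UB X} (hU : IsB U) (v w : X) : nf U v ≤ nf U w + ‖v - w‖ := by
  unfold nf
  rw [← lm_const U ‖v - w‖, ← lm_add (hU.bf_norm w) (Bf.const U _)]
  refine lm_mono (hU.bf_norm v) ((hU.bf_norm w).add (Bf.const U _))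
    (Filter.Eventually.of_forall fun x => ?_)
  have : v + x = (w + x) + (v - w) := by abel
  rw [this]
  exact norm_add_le _ _

lemma nf_abs {U : UB X} (hU : IsB U) (v w : X) : |nf U v - nf U w| ≤ ‖v - w‖ := by
  rw [abs_le]
  have h1 := nf_sub_le hU v w
  have h2 := nf_sub_le hU w v
  rw [norm_sub_rev] at h2
  constructor <;> linarith

lemma nf_continuous {U : UB X} (hU : IsB U) : Continuous (nf U) := by
  refine (LipschitzWith.of_dist_le_mul (K := 1) fun v w => ?_).continuous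
  rw [Real.dist_eq, dist_eq_norm, NNReal.coe_one, one_mul]
  exact nf_abs hU v w

lemma nf_bf {U V : UB X} (hU : IsB U) (hV : IsB V) (v : X) : Bf U (fun x => nf V (v + x)) := by
  obtain ⟨ρ, h⟩ := hU
  obtain ⟨ρ', h'⟩ := hV
  refine ⟨‖v‖ + ρ + ρ', ?_⟩
  unfold Bd at h
  filter_upwards [h] with x hx
  rw [Real.norm_of_nonneg (nf_nonneg h'.isB _)]
  refine (nf_le h' _).trans ?_
  gcongr
  exact (norm_add_le _ _).trans (by gcongr)

lemma nf_conv {U V : UB X} (hU : IsB U) (hV : IsB V) (v : X) :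
    nf (U + V) v = lm U (fun x => nf V (v + x)) := by
  unfold nf
  rw [lm_conv ((hU.add hV).bf_norm v)]
  simp only [add_assoc]

/-- subadditivity for a joint law -/
lemma nf_joint {Z : UB (X × X)} (hZ : IsB Z) (v w : X) :
    nf (Z.map (fun z => z.1 + z.2)) (v + w) ≤ nf (Z.map Prod.fst) v + nf (Z.map Prod.snd) w := by
  have h1 : IsB (Z.map Prod.fst) := hZ.map _ 1 fun z => by rw [one_mul]; exact norm_fst_le z
  have h2 : IsB (Z.map Prod.snd) := hZ.map _ 1 fun z => by rw [one_mul]; exact norm_snd_le z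
  have h3 : IsB (Z.map (fun z => z.1 + z.2)) := hZ.map _ 2 fun z => by
    have := norm_fst_le z
    have := norm_snd_le z
    have := norm_add_le z.1 z.2
    linarith
  have b1 : Bf Z (fun z => ‖v + z.1‖) := h1.bf_norm v
  have b2 : Bf Z (fun z => ‖w + z.2‖) := h2.bf_norm w
  have b3 : Bf Z (fun z => ‖v + w + (z.1 + z.2)‖) := h3.bf_norm (v + w)
  unfold nf
  rw [lm_map, lm_map, lm_map, ← lm_add b1 b2]
  refine lm_mono b3 (b1.add b2) (Filter.Eventually.of_forall fun z => ?_)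
  have : v + w + (z.1 + z.2) = (v + z.1) + (w + z.2) := by abel
  rw [this]
  exact norm_add_le _ _

end bd

section convex

variable {X : Type} [NormedAddCommGroup X] [NormedSpace ℝ X]

lemma nf_convex {U : UB X} (hU : IsB U) : ConvexOn ℝ Set.univ (nf U) := by
  refine ⟨convex_univ, fun v _ w _ a b ha hb hab => ?_⟩
  unfold nf
  simp only [smul_eq_mul]
  rw [← lm_mul_left a (hU.bf_norm v), ← lm_mul_left b (hU.bf_norm w),
    ← lm_add ((hU.bf_norm v).mul_left a) ((hU.bf_norm w).mul_left b)]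
  refine lm_mono (hU.bf_norm _) (((hU.bf_norm v).mul_left a).add ((hU.bf_norm w).mul_left b))
    (Filter.Eventually.of_forall fun x => ?_)
  have : a • v + b • w + x = a • (v + x) + b • (w + x) := by
    rw [smul_add, smul_add]
    have hx : x = a • x + b • x := by rw [← add_smul, hab, one_smul]
    conv_lhs => rw [hx]
    abel
  rw [this]
  refine (norm_add_le _ _).trans ?_
  rw [norm_smul, norm_smul, Real.norm_of_nonneg ha, Real.norm_of_nonneg hb]

/-- weak limits of laws in the bidual -/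
def Wk (U : UB X) (a : StrongDual ℝ (StrongDual ℝ X)) : Prop :=
  ∀ φ : StrongDual ℝ X, Tendsto (fun x => φ x) (U.u : Filter X) (𝓝 (a φ))

lemma Wk.zero : Wk (0 : UB X) 0 := by
  intro φ
  have h : Tendsto (fun x : X => φ x) (((0 : UB X)).u : Filter X) (𝓝 (φ 0)) :=
    tendsto_pure_nhds _ _
  rw [map_zero] at h
  exact h

lemma Wk.add {U V : UB X} {a b : StrongDual ℝ (StrongDual ℝ X)} (hU : Wk U a) (hV : Wk V b) :
    Wk (U + V) (a + b) := by
  intro φ
  refine tendsto_conv (g := fun x => φ x + b φ) (Filter.Eventually.of_forall fun x => ?_) ?_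
  · have := (hV φ).const_add (φ x)
    simpa using this
  · exact (hU φ).add_const (b φ)

lemma Wk.smul {U : UB X} {a : StrongDual ℝ (StrongDual ℝ X)} (hU : Wk U a) (c : ℝ) :
    Wk (U.map (fun x => c • x)) (c • a) := by
  intro φ
  have := (hU φ).const_mul c
  have h2 : Tendsto (fun x => φ (c • x)) (U.u : Filter X) (𝓝 ((c • a) φ)) := by
    simpa using this
  exact h2

lemma Wk.ch {g : ℕ → UB X} {a : ℕ → StrongDual ℝ (StrongDual ℝ X)} (h : ∀ i, Wk (g i) (a i))
    (k L : ℕ) : Wk (UB.ch g k L) (∑ i ∈ Finset.range L, a (k + i)) := by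
  induction L with
  | zero => rw [UB.ch_zero, Finset.range_zero, Finset.sum_empty]; exact Wk.zero
  | succ L ih =>
    rw [UB.ch_succ', Finset.sum_range_succ]
    exact ih.add (h _)

/-- convex continuous functions and weakly null laws -/
lemma convex_wnull {U : UB X} (hU : Wk U 0) {Ψ : X → ℝ} (hc : ConvexOn ℝ Set.univ Ψ)
    (hΨ : Continuous Ψ) (x : X) (c : ℝ) (h : ∀ᶠ g in (U.u : Filter X), Ψ (x + g) ≤ c) :
    Ψ x ≤ c := by
  by_contra hcon
  push Not at hcon
  set S : Set X := {g | Ψ (x + g) ≤ c} with hS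
  have hS1 : Convex ℝ S := by
    intro g hg g' hg' a b ha hb hab
    rw [hS, Set.mem_ofPred_eq] at *
    have h1 : x + (a • g + b • g') = a • (x + g) + b • (x + g') := by
      rw [smul_add, smul_add]
      have hx : x = a • x + b • x := by rw [← add_smul, hab, one_smul]
      conv_lhs => rw [hx]
      abel
    rw [h1]
    refine (hc.2 (Set.mem_univ _) (Set.mem_univ _) ha hb hab).trans ?_
    rw [smul_eq_mul, smul_eq_mul]
    calc a * Ψ (x + g) + b * Ψ (x + g') ≤ a * c + b * c := by gcongr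
      _ = c := by rw [← add_mul, hab, one_mul]
  have hS2 : IsClosed S := isClosed_le (by fun_prop) continuous_const
  have h0 : (0 : X) ∉ S := by
    rw [hS, Set.mem_ofPred_eq, add_zero]
    exact not_le.2 hcon
  obtain ⟨φ, u, hφ1, hφ2⟩ := geometric_hahn_banach_closed_point hS1 hS2 h0
  rw [map_zero] at hφ2
  have h1 := hU φ
  have h2 : (0 : StrongDual ℝ (StrongDual ℝ X)) φ ≤ u := by
    refine le_of_tendsto h1 ?_
    filter_upwards [h] with g hg
    exact (hφ1 g hg).le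
  rw [zero_apply] at h2
  linarith

end convex

section val

variable {X Y : Type} [NormedAddCommGroup X] [NormedAddCommGroup Y] [NormedSpace ℝ Y]

/-- the upper estimate of a coarse Lipschitz map -/
structure CLU (F : X → Y) (B C : ℝ) : Prop where
  hB : 0 ≤ B
  hC : 0 ≤ C
  le : ∀ u v, ‖F u - F v‖ ≤ B * ‖u - v‖ + C

/-- the canonical embedding -/
noncomputable abbrev JJ (Y : Type) [NormedAddCommGroup Y] [NormedSpace ℝ Y] :
    Y →L[ℝ] StrongDual ℝ (StrongDual ℝ Y) := NormedSpace.inclusionInDoubleDual ℝ Y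

lemma JJ_norm (y : Y) : ‖JJ Y y‖ = ‖y‖ :=
  (NormedSpace.inclusionInDoubleDualLi ℝ (E := Y)).norm_map y

/-- the conditional value -/
noncomputable def Wf (F : X → Y) (U : UB X) (u : X) : StrongDual ℝ (StrongDual ℝ Y) :=
  wl U (fun g => JJ Y (F (u + g)))

variable {F : X → Y} {B C : ℝ}

lemma CLU.norm_le (hF : CLU F B C) (u : X) : ‖F u‖ ≤ ‖F 0‖ + B * ‖u‖ + C := by
  have h1 := hF.le u 0
  rw [sub_zero] at h1
  have h2 : ‖F u‖ ≤ ‖F 0‖ + ‖F u - F 0‖ := by
    have := norm_add_le (F 0) (F u - F 0)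
    rwa [add_sub_cancel] at this
  linarith

lemma CLU.bf (hF : CLU F B C) {U : UB X} (hU : IsB U) (u : X) : Bf U (fun g => F (u + g)) := by
  obtain ⟨ρ, h⟩ := hU
  refine ⟨‖F 0‖ + B * (‖u‖ + ρ) + C, ?_⟩
  unfold Bd at h
  filter_upwards [h] with x hx
  refine (hF.norm_le _).trans ?_
  have := hF.hB
  gcongr
  exact (norm_add_le _ _).trans (by gcongr)

lemma CLU.bfJ (hF : CLU F B C) {U : UB X} (hU : IsB U) (u : X) :
    Bf U (fun g => JJ Y (F (u + g))) := by
  obtain ⟨D, hD⟩ := hF.bf hU u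
  exact ⟨D, by filter_upwards [hD] with x hx; rwa [JJ_norm]⟩

lemma Wf_spec (hF : CLU F B C) {U : UB X} (hU : IsB U) (u : X) (φ : StrongDual ℝ Y) :
    Tendsto (fun g => φ (F (u + g))) (U.u : Filter X) (𝓝 (Wf F U u φ)) :=
  wl_spec (hF.bfJ hU u) φ

lemma Wf_zero (hF : CLU F B C) (u : X) : Wf F 0 u = JJ Y (F u) := by
  ext φ
  have h1 := Wf_spec hF IsB.zero u φ
  have h2 : Tendsto (fun g => φ (F (u + g))) ((0 : UB X).u : Filter X) (𝓝 (φ (F (u + 0)))) :=
    tendsto_pure_nhds (fun g => φ (F (u + g))) 0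
  rw [add_zero] at h2
  exact tendsto_nhds_unique h1 h2

lemma Wf_conv (hF : CLU F B C) {U V : UB X} (hU : IsB U) (hV : IsB V) (u : X)
    (φ : StrongDual ℝ Y) :
    Tendsto (fun a => Wf F V (u + a) φ) (U.u : Filter X) (𝓝 (Wf F (U + V) u φ)) := by
  have h1 := Wf_spec hF (hU.add hV) u φ
  have hb : Bf (U + V) (fun g => φ (F (u + g))) := by
    obtain ⟨D, hD⟩ := hF.bf (hU.add hV) u
    refine ⟨‖φ‖ * D, ?_⟩
    filter_upwards [hD] with g hg
    exact (φ.le_opNorm _).trans (by gcongr)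
  have h2 : (fun a => lm V (fun b => φ (F (u + (a + b))))) = fun a => Wf F V (u + a) φ := by
    funext a
    apply lm_eq
    have := Wf_spec hF hV (u + a) φ
    simpa only [add_assoc] using this
  have h3 := lm_spec hb.conv_lm
  rw [h2] at h3
  have h4 := tendsto_conv (f := fun g => φ (F (u + g))) (g := fun a => Wf F V (u + a) φ)
    (Filter.Eventually.of_forall fun a => by
      have := Wf_spec hF hV (u + a) φ
      simpa only [add_assoc] using this) h3
  rwa [tendsto_nhds_unique h1 h4]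

lemma norm_le_of_forall {v : StrongDual ℝ (StrongDual ℝ Y)} {D : ℝ} (hD : 0 ≤ D)
    (h : ∀ φ : StrongDual ℝ Y, ‖φ‖ ≤ 1 → v φ ≤ D) : ‖v‖ ≤ D := by
  refine ContinuousLinearMap.opNorm_le_of_unit_norm hD fun φ hφ => ?_
  rw [Real.norm_eq_abs, abs_le]
  constructor
  · have := h (-φ) (by rw [norm_neg, hφ])
    rw [map_neg] at this
    linarith
  · exact h φ hφ.le

lemma Wf_sub_le (hF : CLU F B C) {U : UB X} (hU : IsB U) (u v : X) :
    ‖Wf F U u - Wf F U v‖ ≤ B * ‖u - v‖ + C := by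
  have hB := hF.hB
  have hC := hF.hC
  refine norm_le_of_forall (by positivity) fun φ hφ => ?_
  have h1 := (Wf_spec hF hU u φ).sub (Wf_spec hF hU v φ)
  refine le_of_tendsto h1 (Filter.Eventually.of_forall fun g => ?_)
  rw [← map_sub]
  refine (le_abs_self _).trans ((φ.le_opNorm _).trans ?_)
  calc ‖φ‖ * ‖F (u + g) - F (v + g)‖ ≤ 1 * (B * ‖u + g - (v + g)‖ + C) := by
        gcongr
        exact hF.le _ _
    _ = B * ‖u - v‖ + C := by rw [one_mul, add_sub_add_right_eq_sub]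

lemma Wf_norm_le (hF : CLU F B C) {U : UB X} {ρ : ℝ} (hU : Bd U ρ) (u : X) :
    ‖Wf F U u‖ ≤ ‖F 0‖ + B * (‖u‖ + ρ) + C := by
  refine wl_norm_le ?_
  unfold Bd at hU
  filter_upwards [hU] with g hg
  rw [JJ_norm]
  refine (hF.norm_le _).trans ?_
  have := hF.hB
  gcongr
  exact (norm_add_le _ _).trans (by gcongr)

end val

end Pool.Agent.W696.QR
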