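import Mathlib
import Pool.Agent.W696.QR.Weak

/-!
The basic estimate for asymptotically uniformly smooth quasi-reflexive targets.
-/
set_option autoImplicit false
open Filter Topology

namespace Pool.Agent.W696.QR

/-- a decomposition of the bidual -/
structure Dec (Y : Type) [NormedAddCommGroup Y] [NormedSpace ℝ Y] where
  /-- the dimension -/
  m : ℕ
  /-- the finite dimensional part -/
  Q : StrongDual ℝ (StrongDual ℝ Y) →ₗ[ℝ] (Fin m → ℝ)
  /-- the lifting -/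
  σ : (Fin m → ℝ) →ₗ[ℝ] StrongDual ℝ (StrongDual ℝ Y)
  /-- the projection -/
  P : StrongDual ℝ (StrongDual ℝ Y) →ₗ[ℝ] Y
  /-- constants -/
  kQ : ℝ
  /-- constants -/
  kσ : ℝ
  /-- constants -/
  kP : ℝ
  hQ0 : 0 ≤ kQ
  hσ0 : 0 ≤ kσ
  hP0 : 0 ≤ kP
  hQ : ∀ z, ‖Q z‖ ≤ kQ * ‖z‖
  hσ : ∀ z, ‖σ z‖ ≤ kσ * ‖z‖
  hP : ∀ z, ‖P z‖ ≤ kP * ‖z‖
  split : ∀ z, z = JJ Y (P z) + σ (Q z)
  PJ : ∀ y, P (JJ Y y) = y
  QJ : ∀ y, Q (JJ Y y) = 0

/-- the smoothness estimate -/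
def AusC (Y : Type) [NormedAddCommGroup Y] [NormedSpace ℝ Y] (ε R : ℝ) : Prop :=
  ∀ (Z : Type) (U : Ultrafilter Z) (g : Z → Y) (r d : ℝ), 0 ≤ d →
    (∀ᶠ z in (U : Filter Z), ‖g z‖ ≤ r) →
    (∀ φ : StrongDual ℝ Y, ‖φ‖ ≤ 1 → ∀ l : ℝ,
      Tendsto (fun z => φ (g z)) (U : Filter Z) (𝓝 l) → l ≤ d) →
    ∀ (y : Y) (κ : ℝ), 0 < κ →
      ∀ᶠ z in (U : Filter Z), ‖y + g z‖ ≤ max ‖y‖ (R * r) + ε * r + d + κ

section

variable {X Y : Type} [NormedAddCommGroup X] [NormedAddCommGroup Y] [NormedSpace ℝ Y]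

/-- the difference of two conditional values -/
noncomputable def Kf (F : X → Y) (U : UB (X × X)) (z : X × X) : StrongDual ℝ (StrongDual ℝ Y) :=
  Wf F (U.map Prod.fst) z.1 - Wf F (U.map Prod.snd) z.2

/-- the finite dimensional part of the value -/
noncomputable def Tf (d : Dec Y) (F : X → Y) (V U : UB X) : Fin d.m → ℝ :=
  lm V (fun u => d.Q (Wf F U u))

/-- the same for differences -/
noncomputable def TJ (d : Dec Y) (F : X → Y) (V U : UB (X × X)) : Fin d.m → ℝ :=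
  lm V (fun z => d.Q (Kf F U z))

/-- the size of the reflexive part -/
noncomputable def NJ (d : Dec Y) (F : X → Y) (V U : UB (X × X)) : ℝ :=
  lm V (fun z => ‖d.P (Kf F U z)‖)

variable {F : X → Y} {B C : ℝ}

lemma IsB.fst {U : UB (X × X)} (hU : IsB U) : IsB (U.map Prod.fst) :=
  hU.map _ 1 fun z => by rw [one_mul]; exact norm_fst_le z

lemma IsB.snd {U : UB (X × X)} (hU : IsB U) : IsB (U.map Prod.snd) :=
  hU.map _ 1 fun z => by rw [one_mul]; exact norm_snd_le z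

lemma map_fst_add (U V : UB (X × X)) :
    (U + V).map Prod.fst = U.map Prod.fst + V.map Prod.fst :=
  UB.map_add (AddMonoidHom.fst X X) U V

lemma map_snd_add (U V : UB (X × X)) :
    (U + V).map Prod.snd = U.map Prod.snd + V.map Prod.snd :=
  UB.map_add (AddMonoidHom.snd X X) U V

lemma Kf_conv (hF : CLU F B C) {g U : UB (X × X)} (hg : IsB g) (hU : IsB U) (z : X × X)
    (φ : StrongDual ℝ Y) :
    Tendsto (fun h => Kf F U (z + h) φ) (g.u : Filter (X × X)) (𝓝 (Kf F (g + U) z φ)) := by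
  have h1 := Wf_conv hF hg.fst hU.fst z.1 φ
  have h2 := Wf_conv hF hg.snd hU.snd z.2 φ
  rw [← map_fst_add] at h1
  rw [← map_snd_add] at h2
  have h1' : Tendsto (fun h : X × X => Wf F (U.map Prod.fst) (z.1 + h.1) φ)
    (g.u : Filter (X × X)) (𝓝 (Wf F ((g + U).map Prod.fst) z.1 φ)) := h1
  have h2' : Tendsto (fun h : X × X => Wf F (U.map Prod.snd) (z.2 + h.2) φ)
    (g.u : Filter (X × X)) (𝓝 (Wf F ((g + U).map Prod.snd) z.2 φ)) := h2
  exact h1'.sub h2'

lemma Kf_sub_le (hF : CLU F B C) {U : UB (X × X)} (hU : IsB U) (z w : X × X) :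
    ‖Kf F U z - Kf F U w‖ ≤ 2 * (B * ‖z - w‖ + C) := by
  have h1 := Wf_sub_le hF hU.fst z.1 w.1
  have h2 := Wf_sub_le hF hU.snd z.2 w.2
  have h3 : ‖z.1 - w.1‖ ≤ ‖z - w‖ := norm_fst_le (z - w)
  have h4 : ‖z.2 - w.2‖ ≤ ‖z - w‖ := norm_snd_le (z - w)
  have hB := hF.hB
  have e : Kf F U z - Kf F U w = (Wf F (U.map Prod.fst) z.1 - Wf F (U.map Prod.fst) w.1) -
      (Wf F (U.map Prod.snd) z.2 - Wf F (U.map Prod.snd) w.2) := by
    unfold Kf
    abel
  rw [e]
  have h7 : ‖(Wf F (U.map Prod.fst) z.1 - Wf F (U.map Prod.fst) w.1) -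
      (Wf F (U.map Prod.snd) z.2 - Wf F (U.map Prod.snd) w.2)‖ ≤
      ‖Wf F (U.map Prod.fst) z.1 - Wf F (U.map Prod.fst) w.1‖ +
      ‖Wf F (U.map Prod.snd) z.2 - Wf F (U.map Prod.snd) w.2‖ :=
    norm_sub_le (E := StrongDual ℝ (StrongDual ℝ Y)) _ _
  have h5 : B * ‖z.1 - w.1‖ ≤ B * ‖z - w‖ := by gcongr
  have h6 : B * ‖z.2 - w.2‖ ≤ B * ‖z - w‖ := by gcongr
  linarith

lemma apply_le_norm (v : StrongDual ℝ (StrongDual ℝ Y)) {φ : StrongDual ℝ Y} (hφ : ‖φ‖ ≤ 1) :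
    v φ ≤ ‖v‖ := by
  have h1 : ‖v φ‖ ≤ ‖v‖ * ‖φ‖ := v.le_opNorm φ
  have h2 : v φ ≤ ‖v φ‖ := Real.le_norm_self _
  have h3 : ‖v‖ * ‖φ‖ ≤ ‖v‖ * 1 := by gcongr
  linarith

lemma Kf_diff (hF : CLU F B C) {g U : UB (X × X)} {ρ : ℝ} (hg : Bd g ρ) (hU : IsB U)
    (z : X × X) : ∀ᶠ h in (g.u : Filter (X × X)),
      ‖Kf F U (z + h) - Kf F (g + U) z‖ ≤ 2 * (2 * B * ρ + C) := by
  have hB := hF.hB
  have hC := hF.hC
  have hρ := hg.nonneg
  have hg' := hg
  unfold Bd at hg'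
  filter_upwards [hg'] with h hh
  refine norm_le_of_forall (by positivity) fun φ hφ => ?_
  have h1 := (Kf_conv hF hg.isB hU z φ).const_sub (Kf F U (z + h) φ)
  refine le_of_tendsto h1 ?_
  filter_upwards [hg'] with h' hh'
  have h2 := Kf_sub_le hF hU (z + h) (z + h')
  rw [add_sub_add_left_eq_sub] at h2
  have h3 : ‖h - h'‖ ≤ 2 * ρ := (norm_sub_le h h').trans (by linarith)
  have h4 : (Kf F U (z + h) - Kf F U (z + h')) φ ≤ ‖Kf F U (z + h) - Kf F U (z + h')‖ :=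
    apply_le_norm _ hφ
  have h5 : B * ‖h - h'‖ ≤ B * (2 * ρ) := by gcongr
  have h6 : (Kf F U (z + h) - Kf F U (z + h')) φ = Kf F U (z + h) φ - Kf F U (z + h') φ := rfl
  rw [h6] at h4
  linarith

lemma Kf_bf (hF : CLU F B C) {V U : UB (X × X)} (hV : IsB V) (hU : IsB U) (z : X × X) :
    Bf V (fun h => Kf F U (z + h)) := by
  obtain ⟨ρ, hρ⟩ := hV
  refine ⟨2 * (2 * B * ρ + C) + ‖Kf F (V + U) z‖, ?_⟩
  filter_upwards [Kf_diff hF hρ hU z] with h hh
  have h1 := norm_le_norm_add_norm_sub' (Kf F U (z + h)) (Kf F (V + U) z)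
  linarith

lemma Kf_bf0 (hF : CLU F B C) {V U : UB (X × X)} (hV : IsB V) (hU : IsB U) :
    Bf V (fun h => Kf F U h) := by
  have := Kf_bf hF hV hU 0
  simpa only [zero_add] using this

lemma bf_lin {Z E E' : Type} [NormedAddCommGroup E] [NormedAddCommGroup E']
    {V : UB Z} {f : Z → E} (h : Bf V f) (T : E → E') (k : ℝ) (hk : 0 ≤ k)
    (hT : ∀ z, ‖T z‖ ≤ k * ‖z‖) :
    Bf V (fun z => T (f z)) := by
  obtain ⟨D, hD⟩ := h
  refine ⟨k * D, ?_⟩
  filter_upwards [hD] with z hz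
  exact (hT _).trans (by gcongr)

lemma bf_Q {Z : Type} {V : UB Z} {f : Z → StrongDual ℝ (StrongDual ℝ Y)} (h : Bf V f)
    (d : Dec Y) : Bf V (fun z => d.Q (f z)) := bf_lin h d.Q d.kQ d.hQ0 d.hQ

lemma bf_P {Z : Type} {V : UB Z} {f : Z → StrongDual ℝ (StrongDual ℝ Y)} (h : Bf V f)
    (d : Dec Y) : Bf V (fun z => d.P (f z)) := bf_lin h d.P d.kP d.hP0 d.hP

lemma TJ_conv (d : Dec Y) (hF : CLU F B C) {V g U : UB (X × X)} (hV : IsB V) (hg : IsB g)
    (hU : IsB U) :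
    TJ d F (V + g) U = lm V (fun z => lm g (fun h => d.Q (Kf F U (z + h)))) :=
  lm_conv (bf_Q (Kf_bf0 hF (hV.add hg) hU) d)

/-- **One step.** -/
theorem step (hF : CLU F B C) (d : Dec Y) {ε R : ℝ} (hA : AusC Y ε R)
    {V g U : UB (X × X)} (hV : IsB V) {ρ : ℝ} (hg : Bd g ρ) (hU : IsB U) :
    NJ d F (V + g) U ≤ max (NJ d F V (g + U)) (R * (d.kP * (2 * (2 * B * ρ + C)))) +
      ε * (d.kP * (2 * (2 * B * ρ + C))) +
      d.kσ * ‖TJ d F (V + g) U - TJ d F V (g + U)‖ := by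
  set r := d.kP * (2 * (2 * B * ρ + C)) with hr
  refine le_of_forall_pos_le_add fun κ hκ => ?_
  have hgB := hg.isB
  set q : X × X → (Fin d.m → ℝ) := fun z => lm g (fun h => d.Q (Kf F U (z + h))) with hq
  have hbK : ∀ z, Bf g (fun h => Kf F U (z + h)) := fun z => Kf_bf hF hgB hU z
  have hbq : Bf V q := (bf_Q (Kf_bf0 hF (hV.add hgB) hU) d).conv_lm
  have hbQ : Bf V (fun z => d.Q (Kf F (g + U) z)) := bf_Q (Kf_bf0 hF hV (hgB.add hU)) d
  have hbP : Bf V (fun z => ‖d.P (Kf F (g + U) z)‖) :=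
    (bf_P (Kf_bf0 hF hV (hgB.add hU)) d).norm
  have hbPn : Bf (V + g) (fun z => ‖d.P (Kf F U z)‖) :=
    (bf_P (Kf_bf0 hF (hV.add hgB) hU) d).norm
  have key : ∀ z, lm g (fun h => ‖d.P (Kf F U (z + h))‖) ≤
      max ‖d.P (Kf F (g + U) z)‖ (R * r) + ε * r + d.kσ * ‖q z - d.Q (Kf F (g + U) z)‖ + κ := by
    intro z
    refine le_of_tendsto (lm_spec ((bf_P (hbK z) d).norm)) ?_
    have h1 := hA (X × X) g.u (fun h => d.P (Kf F U (z + h)) - d.P (Kf F (g + U) z)) r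
      (d.kσ * ‖q z - d.Q (Kf F (g + U) z)‖) (mul_nonneg d.hσ0 (norm_nonneg _)) (by
        filter_upwards [Kf_diff hF hg hU z] with h hh
        rw [← map_sub]
        have := d.hP0
        exact (d.hP _).trans (by rw [hr]; gcongr)) (by
        intro φ hφ l hl
        have h2 := Kf_conv hF hgB hU z φ
        have h3 : Tendsto (fun h => d.Q (Kf F U (z + h))) (g.u : Filter (X × X)) (𝓝 (q z)) :=
          lm_spec (bf_Q (hbK z) d)
        have h4 : Tendsto (fun h => d.σ (d.Q (Kf F U (z + h))) φ) (g.u : Filter (X × X))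
            (𝓝 (d.σ (q z) φ)) := by
          let T : (Fin d.m → ℝ) →ₗ[ℝ] ℝ :=
            { toFun := fun w => d.σ w φ
              map_add' := fun w w' => by rw [map_add]; rfl
              map_smul' := fun c w => by rw [map_smul]; rfl }
          have hc : Continuous T := T.continuous_of_finiteDimensional
          exact (hc.tendsto _).comp h3
        have h5 : ∀ w : StrongDual ℝ (StrongDual ℝ Y), φ (d.P w) = w φ - d.σ (d.Q w) φ := by
          intro w
          have h6 := congrArg (fun v : StrongDual ℝ (StrongDual ℝ Y) => v φ) (d.split w)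
          have h7 : JJ Y (d.P w) φ = φ (d.P w) := rfl
          simp only [add_apply, h7] at h6
          linarith
        have h8 : Tendsto (fun h => φ (d.P (Kf F U (z + h)) - d.P (Kf F (g + U) z)))
            (g.u : Filter (X × X)) (𝓝 ((Kf F (g + U) z φ - d.σ (q z) φ) -
              (Kf F (g + U) z φ - d.σ (d.Q (Kf F (g + U) z)) φ))) := by
          have h9 := (h2.sub h4).sub_const (Kf F (g + U) z φ - d.σ (d.Q (Kf F (g + U) z)) φ)
          refine h9.congr fun h => ?_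
          rw [map_sub, h5, h5]
        rw [tendsto_nhds_unique hl h8]
        have h9 : (Kf F (g + U) z φ - d.σ (q z) φ) -
            (Kf F (g + U) z φ - d.σ (d.Q (Kf F (g + U) z)) φ) =
            d.σ (d.Q (Kf F (g + U) z) - q z) φ := by
          rw [map_sub]
          show _ = (d.σ (d.Q (Kf F (g + U) z)) - d.σ (q z)) φ
          rw [sub_apply]
          ring
        rw [h9]
        have h10 := apply_le_norm (d.σ (d.Q (Kf F (g + U) z) - q z)) hφ
        have h11 : ‖q z - d.Q (Kf F (g + U) z)‖ = ‖d.Q (Kf F (g + U) z) - q z‖ :=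
          norm_sub_rev _ _
        rw [h11]
        exact h10.trans (d.hσ _))
      (d.P (Kf F (g + U) z)) κ hκ
    filter_upwards [h1] with h hh
    rwa [add_sub_cancel] at hh
  have hbd : Bf V (fun z => ‖q z - d.Q (Kf F (g + U) z)‖) := (hbq.sub hbQ).norm
  have e1 : NJ d F (V + g) U = lm V (fun z => lm g (fun h => ‖d.P (Kf F U (z + h))‖)) :=
    lm_conv hbPn
  have e2 : TJ d F (V + g) U - TJ d F V (g + U) =
      lm V (fun z => q z - d.Q (Kf F (g + U) z)) := by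
    rw [TJ_conv d hF hV hgB hU, lm_sub hbq hbQ]
    rfl
  rw [e1, e2, ← lm_norm (hbq.sub hbQ)]
  calc lm V (fun z => lm g (fun h => ‖d.P (Kf F U (z + h))‖))
      ≤ lm V (fun z => (max ‖d.P (Kf F (g + U) z)‖ (R * r) + (ε * r + κ)) +
          d.kσ * ‖q z - d.Q (Kf F (g + U) z)‖) := by
        refine lm_mono hbPn.conv_lm (((hbP.max (Bf.const V (R * r))).add (Bf.const V _)).add
          (hbd.mul_left _)) (Filter.Eventually.of_forall fun z => (key z).trans (le_of_eq (by ring)))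
    _ = (max (NJ d F V (g + U)) (R * r) + (ε * r + κ)) +
          d.kσ * lm V (fun z => ‖q z - d.Q (Kf F (g + U) z)‖) := by
        rw [lm_add ((hbP.max (Bf.const V (R * r))).add (Bf.const V _)) (hbd.mul_left _),
          lm_add (hbP.max (Bf.const V (R * r))) (Bf.const V _), lm_max hbP (Bf.const V _),
          lm_const, lm_const, lm_mul_left _ hbd]
        rfl
    _ = _ := by ring

/-- **Several steps.** -/
theorem chain (hF : CLU F B C) (d : Dec Y) {ε R : ℝ} (hε : 0 ≤ ε) (hA : AusC Y ε R) {ρ θ : ℝ}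
    (hθ : 0 ≤ θ)
    {g : ℕ → UB (X × X)} (hg : ∀ i, Bd (g i) ρ) {U : UB (X × X)} (hU : IsB U) (L : ℕ) :
    ∀ (k : ℕ) (V : UB (X × X)), IsB V →
    (∀ i, i < L → ‖TJ d F (V + UB.ch g k (i + 1)) (UB.ch g (k + i + 1) (L - i - 1) + U) -
        TJ d F (V + UB.ch g k i) (UB.ch g (k + i) (L - i) + U)‖ ≤ θ) →
    max (NJ d F (V + UB.ch g k L) U) (R * (d.kP * (2 * (2 * B * ρ + C)))) ≤
      max (NJ d F V (UB.ch g k L + U)) (R * (d.kP * (2 * (2 * B * ρ + C)))) +
      L * (ε * (d.kP * (2 * (2 * B * ρ + C))) + d.kσ * θ) := by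
  induction L with
  | zero =>
    intro k V hV _
    rw [UB.ch_zero, add_zero, zero_add, Nat.cast_zero, zero_mul, add_zero]
  | succ L ih =>
    intro k V hV hT
    set r := d.kP * (2 * (2 * B * ρ + C)) with hr
    have hch : ∀ a L, IsB (UB.ch g a L) := IsB.ch fun i => (hg i).isB
    have h1 := ih (k + 1) (V + g k) (hV.add (hg k).isB) (by
      intro i hi
      have h2 := hT (i + 1) (by omega)
      rw [show k + (i + 1) + 1 = k + 1 + i + 1 by ring, show L + 1 - (i + 1) - 1 = L - i - 1 by omega,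
        show k + (i + 1) = k + 1 + i by ring, show L + 1 - (i + 1) = L - i by omega,
        UB.ch_succ g k (i + 1), UB.ch_succ g k i, ← add_assoc, ← add_assoc] at h2
      exact h2)
    have h3 := step hF d hA hV (hg k) ((hch (k + 1) L).add hU)
    have h4 := hT 0 (by omega)
    rw [zero_add, UB.ch_one, add_zero, UB.ch_zero, add_zero, Nat.sub_zero, Nat.add_sub_cancel,
      UB.ch_succ, add_assoc] at h4
    have h5 : d.kσ * ‖TJ d F (V + g k) (UB.ch g (k + 1) L + U) -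
        TJ d F V (g k + (UB.ch g (k + 1) L + U))‖ ≤ d.kσ * θ :=
      mul_le_mul_of_nonneg_left h4 d.hσ0
    rw [UB.ch_succ, ← add_assoc, add_assoc (g k)]
    rw [← hr] at h3
    have hr0 : 0 ≤ r := by
      have := hF.hB
      have := hF.hC
      have := (hg 0).nonneg
      have := d.hP0
      positivity
    have hσ0 := d.hσ0
    have h6 : max (NJ d F (V + g k) (UB.ch g (k + 1) L + U)) (R * r) ≤
        max (NJ d F V (g k + (UB.ch g (k + 1) L + U))) (R * r) + (ε * r + d.kσ * θ) := by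
      refine max_le (by linarith) ?_
      have h7 := le_max_right (NJ d F V (g k + (UB.ch g (k + 1) L + U))) (R * r)
      have h8 : 0 ≤ ε * r + d.kσ * θ := by positivity
      linarith
    push_cast
    linarith

end

end Pool.Agent.W696.QR
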