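import Mathlib
import Pool.Agent.W696.QR.Chain

/-!
Sublinear growth of sums of weakly null laws.
-/
set_option autoImplicit false
set_option linter.unusedSectionVars false
open Filter Topology

namespace Pool.Agent.W696.QR

section homs

variable {X : Type} [NormedAddCommGroup X] [NormedSpace ℝ X]

/-- scaling -/
def sc (c : ℝ) : X →+ X where
  toFun := fun x => c • x
  map_zero' := smul_zero c
  map_add' := smul_add c

/-- negation -/
def ng : X →+ X where
  toFun := fun x => -x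
  map_zero' := neg_zero
  map_add' := fun x y => by rw [neg_add]

/-- left inclusion -/
def iL : X →+ X × X where
  toFun := fun x => (x, 0)
  map_zero' := rfl
  map_add' := fun x y => by rw [Prod.mk_add_mk, add_zero]

/-- right inclusion -/
def iR : X →+ X × X where
  toFun := fun x => (0, x)
  map_zero' := rfl
  map_add' := fun x y => by rw [Prod.mk_add_mk, add_zero]

/-- diagonal -/
def dg : X →+ X × X where
  toFun := fun x => (x, x)
  map_zero' := rfl
  map_add' := fun x y => by rw [Prod.mk_add_mk]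

/-- difference -/
def df : X × X →+ X where
  toFun := fun z => z.1 - z.2
  map_zero' := by simp
  map_add' := fun x y => by
    rw [Prod.fst_add, Prod.snd_add]
    abel

/-- sum -/
def sm : X × X →+ X where
  toFun := fun z => z.1 + z.2
  map_zero' := by simp
  map_add' := fun x y => by
    rw [Prod.fst_add, Prod.snd_add]
    abel

/-- first projection -/
def pL : X × X →+ X := AddMonoidHom.fst X X

/-- second projection -/
def pR : X × X →+ X := AddMonoidHom.snd X X

lemma pL_iL (U : UB X) : (U.map iL).map pL = U := rfl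
lemma pR_iR (U : UB X) : (U.map iR).map pR = U := rfl
lemma pL_iR (U : UB X) : (U.map iR).map pL = 0 := UB.map_zero_fun U
lemma pR_iL (U : UB X) : (U.map iL).map pR = 0 := UB.map_zero_fun U
lemma pL_dg (U : UB X) : (U.map dg).map pL = U := rfl
lemma pR_dg (U : UB X) : (U.map dg).map pR = U := rfl

lemma df_iL (U : UB X) : (U.map iL).map df = U := by
  refine UB.ext_ev fun p => ?_
  rw [UB.ev_map, UB.ev_map]
  simp [iL, df]

lemma df_iR (U : UB X) : (U.map iR).map df = U.map ng := by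
  refine UB.ext_ev fun p => ?_
  rw [UB.ev_map, UB.ev_map, UB.ev_map]
  simp [iR, df, ng]

lemma df_dg (U : UB X) : (U.map dg).map df = 0 := by
  have h : (U.map dg).map df = U.map (fun _ => (0 : X)) := by
    refine UB.ext_ev fun p => ?_
    rw [UB.ev_map, UB.ev_map, UB.ev_map]
    simp [dg, df]
  rw [h, UB.map_zero_fun]

lemma sm_iL (U : UB X) : (U.map iL).map sm = U := by
  refine UB.ext_ev fun p => ?_
  rw [UB.ev_map, UB.ev_map]
  simp [iL, sm]

lemma sm_iR (U : UB X) : (U.map iR).map sm = U := by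
  refine UB.ext_ev fun p => ?_
  rw [UB.ev_map, UB.ev_map]
  simp [iR, sm]

lemma ng_sc (U : UB X) (c : ℝ) : (U.map (sc c)).map ng = (U.map ng).map (sc c) := by
  refine UB.ext_ev fun p => ?_
  rw [UB.ev_map, UB.ev_map, UB.ev_map, UB.ev_map]
  simp [sc, ng]

lemma Bd.iL {U : UB X} {ρ : ℝ} (h : Bd U ρ) : Bd (U.map iL) ρ :=
  h.map _ fun x hx => by
    have : ‖((x, 0) : X × X)‖ ≤ ρ := by
      rw [Prod.norm_mk, norm_zero]
      exact max_le hx h.nonneg
    exact this

lemma Bd.iR {U : UB X} {ρ : ℝ} (h : Bd U ρ) : Bd (U.map iR) ρ :=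
  h.map _ fun x hx => by
    have : ‖((0, x) : X × X)‖ ≤ ρ := by
      rw [Prod.norm_mk, norm_zero]
      exact max_le h.nonneg hx
    exact this

lemma Bd.dg {U : UB X} {ρ : ℝ} (h : Bd U ρ) : Bd (U.map dg) ρ :=
  h.map _ fun x hx => by
    have : ‖((x, x) : X × X)‖ ≤ ρ := by
      rw [Prod.norm_mk]
      exact max_le hx hx
    exact this

lemma Bd.ng {U : UB X} {ρ : ℝ} (h : Bd U ρ) : Bd (U.map ng) ρ :=
  h.map _ fun x hx => by
    have : ‖-x‖ ≤ ρ := by rwa [norm_neg]
    exact this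

lemma Bd.sc {U : UB X} {ρ : ℝ} (h : Bd U ρ) (c : ℝ) : Bd (U.map (sc c)) (|c| * ρ) :=
  h.map _ fun x hx => by
    have : ‖c • x‖ ≤ |c| * ρ := by
      rw [norm_smul, Real.norm_eq_abs]
      gcongr
    exact this

lemma nf_sc {U : UB X} (hU : IsB U) (c : ℝ) : nf (U.map (sc c)) 0 = |c| * nf U 0 := by
  unfold nf
  rw [lm_map, ← lm_mul_left _ (hU.bf_norm 0)]
  congr 1
  funext x
  show ‖0 + c • x‖ = _
  rw [zero_add, zero_add, norm_smul, Real.norm_eq_abs]

lemma nf_ng {U : UB X} : nf (U.map ng) 0 = nf U 0 := by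
  unfold nf
  rw [lm_map]
  congr 1
  funext x
  show ‖0 + -x‖ = _
  rw [zero_add, zero_add, norm_neg]

lemma Wk.ng {U : UB X} {a : StrongDual ℝ (StrongDual ℝ X)} (hU : Wk U a) :
    Wk (U.map ng) (-a) := by
  intro φ
  have := (hU φ).neg
  have h2 : Tendsto (fun x => φ (-x)) (U.u : Filter X) (𝓝 ((-a) φ)) := by
    simpa using this
  exact h2

lemma nf_drop {h U : UB X} (hh : IsB h) (hw : Wk h 0) (hU : IsB U) (v : X) :
    nf U v ≤ nf (h + U) v := by
  rw [nf_conv hh hU]
  refine le_of_forall_pos_le_add fun κ hκ => ?_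
  have h1 := lm_spec (nf_bf hh hU v)
  have h2 := h1.eventually_le_const (lt_add_of_pos_right _ hκ)
  exact convex_wnull hw (nf_convex hU) (nf_continuous hU) v _ h2

lemma nf_mono_right {V U U' : UB X} (hV : IsB V) (hU : IsB U) (hU' : IsB U')
    (h : ∀ v, nf U v ≤ nf U' v) (v : X) : nf (V + U) v ≤ nf (V + U') v := by
  rw [nf_conv hV hU, nf_conv hV hU']
  exact lm_mono (nf_bf hV hU v) (nf_bf hV hU' v) (Filter.Eventually.of_forall fun x => h _)

lemma nf_add_le {U V : UB X} (hU : IsB U) (hV : IsB V) (v w : X) :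
    nf (U + V) (v + w) ≤ nf U v + nf V w := by
  have h1 : ∀ x : X, nf V (v + w + x) ≤ ‖v + x‖ + nf V w := by
    intro x
    have := nf_sub_le hV (v + w + x) w
    have e : v + w + x - w = v + x := by abel
    rw [e] at this
    linarith
  rw [nf_conv hU hV]
  calc lm U (fun x => nf V (v + w + x)) ≤ lm U (fun x => ‖v + x‖ + nf V w) :=
        lm_mono (nf_bf hU hV _) ((hU.bf_norm v).add (Bf.const U _))
          (Filter.Eventually.of_forall h1)
    _ = nf U v + nf V w := by
        rw [lm_add (hU.bf_norm v) (Bf.const U _), lm_const]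
        rfl

lemma dd_neg_zero : (-(0 : StrongDual ℝ (StrongDual ℝ X))) = 0 := by
  ext φ
  show -(0 : ℝ) = 0
  rw [neg_zero]

lemma dd_sub_self (a : StrongDual ℝ (StrongDual ℝ X)) : a - a = 0 := by
  ext φ
  show a φ - a φ = 0
  rw [sub_self]

lemma Dec.P_sub (d : Dec X) (a b : StrongDual ℝ (StrongDual ℝ X)) :
    d.P (a - b) = d.P a - d.P b := map_sub d.P a b

lemma Dec.Q_sub (d : Dec X) (a b : StrongDual ℝ (StrongDual ℝ X)) :
    d.Q (a - b) = d.Q a - d.Q b := map_sub d.Q a b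

lemma nf_ch_dup {g : ℕ → UB X} (hg : ∀ i, IsB (g i)) (hw : ∀ i, Wk (g i) 0) (m : ℕ) :
    ∀ (a : ℕ) (v : X),
      nf (UB.ch g a m) v ≤ nf (UB.ch (fun i => g i + (g i).map ng) a m) v := by
  have hg' : ∀ i, IsB (g i + (g i).map ng) := fun i => by
    obtain ⟨ρ, hρ⟩ := hg i
    exact (hg i).add hρ.ng.isB
  have hn : ∀ i, IsB ((g i).map ng) := fun i => by
    obtain ⟨ρ, hρ⟩ := hg i
    exact hρ.ng.isB
  have hwn : ∀ i, Wk ((g i).map ng) 0 := fun i => by
    have := (hw i).ng
    rwa [dd_neg_zero] at this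
  induction m with
  | zero => intro a v; rfl
  | succ m ih =>
    intro a v
    rw [UB.ch_succ, UB.ch_succ, add_assoc]
    refine nf_mono_right (hg a) (IsB.ch hg _ _) ((hn a).add (IsB.ch hg' _ _)) (fun v => ?_) v
    exact (ih (a + 1) v).trans (nf_drop (hn a) (hwn a) (IsB.ch hg' _ _) v)

end homs

section

variable {X Y : Type} [NormedAddCommGroup X] [NormedSpace ℝ X] [NormedAddCommGroup Y]
  [NormedSpace ℝ Y] {F : X → Y} {B C : ℝ}

lemma Wf_bf (hF : CLU F B C) {V U : UB X} (hV : IsB V) (hU : IsB U) :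
    Bf V (fun z => Wf F U z) := by
  obtain ⟨ρ, hρ⟩ := hV
  obtain ⟨ρ', hρ'⟩ := hU
  refine ⟨‖F 0‖ + B * (ρ + ρ') + C, ?_⟩
  unfold Bd at hρ
  filter_upwards [hρ] with x hx
  refine (Wf_norm_le hF hρ' x).trans ?_
  have := hF.hB
  gcongr

lemma TJ_eq (d : Dec Y) (hF : CLU F B C) {V U : UB (X × X)} (hV : IsB V) (hU : IsB U) :
    TJ d F V U = Tf d F (V.map pL) (U.map pL) - Tf d F (V.map pR) (U.map pR) := by
  have b1 : Bf V (fun z => d.Q (Wf F (U.map pL) z.1)) := bf_Q (Wf_bf hF hV.fst hU.fst) d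
  have b2 : Bf V (fun z => d.Q (Wf F (U.map pR) z.2)) := bf_Q (Wf_bf hF hV.snd hU.snd) d
  have e : TJ d F V U = lm V (fun z => d.Q (Wf F (U.map pL) z.1) - d.Q (Wf F (U.map pR) z.2)) := by
    unfold TJ
    congr 1
    funext z
    exact map_sub d.Q _ _
  rw [e, lm_sub b1 b2]
  rfl

lemma NJ_start (d : Dec Y) {U : UB (X × X)} (h : U.map pL = U.map pR) : NJ d F 0 U = 0 := by
  unfold NJ
  rw [lm_zero']
  have e : Kf F U 0 = 0 := by
    show Wf F (U.map pL) 0 - Wf F (U.map pR) 0 = 0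
    rw [h, dd_sub_self]
  rw [e, map_zero, norm_zero]

lemma NJ_end (d : Dec Y) (hF : CLU F B C) {A : ℝ} (hA : 0 < A)
    (hl : ∀ u v, ‖u - v‖ / A - C ≤ ‖F u - F v‖) {V : UB (X × X)} (hV : IsB V) :
    nf (V.map df) 0 / A - C ≤ NJ d F V 0 := by
  have hK : ∀ z : X × X, d.P (Kf F 0 z) = F z.1 - F z.2 := by
    intro z
    have e : Kf F 0 z = JJ Y (F z.1) - JJ Y (F z.2) := by
      show Wf F ((0 : UB (X × X)).map pL) z.1 - Wf F ((0 : UB (X × X)).map pR) z.2 = _
      rw [UB.map_zero, UB.map_zero, Wf_zero hF, Wf_zero hF]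
    rw [e, d.P_sub, d.PJ, d.PJ]
  have b1 : Bf V (fun z => ‖z.1 - z.2‖) := by
    obtain ⟨ρ, hρ⟩ := hV
    refine ⟨2 * ρ, ?_⟩
    unfold Bd at hρ
    filter_upwards [hρ] with z hz
    rw [norm_norm]
    have h1 := norm_fst_le z
    have h2 := norm_snd_le z
    have h3 := norm_sub_le z.1 z.2
    linarith
  have b2 : Bf V (fun z => ‖d.P (Kf F 0 z)‖) := (bf_P (Kf_bf0 hF hV IsB.zero) d).norm
  have e1 : nf (V.map df) 0 / A - C = lm V (fun z => A⁻¹ * ‖z.1 - z.2‖ + (-C)) := by
    rw [lm_add (b1.mul_left _) (Bf.const V _), lm_mul_left _ b1, lm_const]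
    have e2 : nf (V.map df) 0 = lm V (fun z => ‖z.1 - z.2‖) := by
      unfold nf
      rw [lm_map]
      congr 1
      funext z
      rw [zero_add]
      rfl
    rw [e2]
    ring
  rw [e1]
  refine lm_mono ((b1.mul_left _).add (Bf.const V _)) b2 (Filter.Eventually.of_forall fun z => ?_)
  rw [hK]
  have := hl z.1 z.2
  rw [div_eq_inv_mul] at this
  linarith

/-- **Sublinear growth** of sums of weakly null laws. -/
theorem sub_lin (hF : CLU F B C) {A : ℝ} (hA : 0 < A)
    (hl : ∀ u v, ‖u - v‖ / A - C ≤ ‖F u - F v‖) (d : Dec Y) {ε R : ℝ} (hε : 0 ≤ ε)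
    (hR : 0 ≤ R) (hAu : AusC Y ε R) {τ : ℝ} {g : ℕ → UB X} (hg : ∀ i, Bd (g i) τ)
    (hw : ∀ i, Wk (g i) 0) (m : ℕ) :
    nf (UB.ch g 0 m) 0 ≤ A * ((R + m * ε) * (d.kP * (8 * B * τ))) := by
  have hB := hF.hB
  have hC := hF.hC
  have hτ := (hg 0).nonneg
  have hP := d.hP0
  have hgI : ∀ i, IsB (g i) := fun i => (hg i).isB
  have hdup : ∀ i, IsB (g i + (g i).map ng) := fun i => (hgI i).add (hg i).ng.isB
  refine (nf_ch_dup hgI hw m 0 0).trans ?_
  set D := UB.ch (fun i => g i + (g i).map ng) 0 m with hD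
  have hDB : IsB D := IsB.ch hdup 0 m
  have key : ∀ s : ℝ, 0 < s → s * nf D 0 ≤
      s * (A * ((R + m * ε) * (d.kP * (8 * B * τ)))) +
        A * ((R + m * ε) * (d.kP * (2 * C)) + C) := by
    intro s hs
    set gJ : ℕ → UB (X × X) := fun i => ((g i).map (sc s)).map iL + ((g i).map (sc s)).map iR
      with hgJ
    have hb : ∀ i, Bd (gJ i) (2 * (s * τ)) := by
      intro i
      have h1 := ((hg i).sc s).iL.add ((hg i).sc s).iR
      rw [abs_of_pos hs] at h1
      exact h1.mono (le_of_eq (by ring))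
    have hbI : ∀ i, IsB (gJ i) := fun i => (hb i).isB
    have hL : ∀ a L, (UB.ch gJ a L).map pL = (UB.ch gJ a L).map pR := by
      intro a L
      rw [UB.ch_map, UB.ch_map]
      congr 1
      funext i
      rw [hgJ]
      simp only
      rw [UB.map_add, UB.map_add, pL_iL, pL_iR, pR_iL, pR_iR, add_zero, zero_add]
    have hT : ∀ a L a' L', TJ d F (UB.ch gJ a L) (UB.ch gJ a' L') = 0 := by
      intro a L a' L'
      rw [TJ_eq d hF (IsB.ch hbI a L) (IsB.ch hbI a' L'), hL a L, hL a' L', sub_self]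
    have h1 := chain hF d hε hAu le_rfl hb IsB.zero m 0 0 IsB.zero (fun i hi => by
      simp only [zero_add, add_zero]
      rw [hT, hT, sub_zero, norm_zero])
    rw [zero_add, add_zero, NJ_start d (hL 0 m), mul_zero, add_zero] at h1
    set r := d.kP * (2 * (2 * B * (2 * (s * τ)) + C)) with hr
    have hr0 : 0 ≤ r := by positivity
    have h2 : NJ d F (UB.ch gJ 0 m) 0 ≤ R * r + m * (ε * r) := by
      have h3 := (le_max_left (NJ d F (UB.ch gJ 0 m) 0) (R * r)).trans h1
      rwa [max_eq_right (by positivity : (0 : ℝ) ≤ R * r)] at h3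
    have h4 := NJ_end d hF hA hl (IsB.ch hbI 0 m)
    have h5 : (UB.ch gJ 0 m).map df = D.map (sc s) := by
      rw [hD, UB.ch_map, UB.ch_map]
      congr 1
      funext i
      rw [hgJ]
      simp only
      rw [UB.map_add, UB.map_add, df_iL, df_iR, ng_sc]
    rw [h5, nf_sc hDB, abs_of_pos hs] at h4
    have h6 : s * nf D 0 / A ≤ R * r + m * (ε * r) + C := by linarith
    rw [div_le_iff₀ hA] at h6
    refine h6.trans (le_of_eq ?_)
    rw [hr]
    ring
  by_contra hcon
  push Not at hcon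
  set α := A * ((R + m * ε) * (d.kP * (8 * B * τ))) with hα
  set β := A * ((R + m * ε) * (d.kP * (2 * C)) + C) with hβ
  have hβ0 : 0 ≤ β := by positivity
  have hpos : 0 < nf D 0 - α := by linarith
  have h7 := key ((β + 1) / (nf D 0 - α)) (by positivity)
  have h8 : (β + 1) / (nf D 0 - α) * (nf D 0 - α) = β + 1 := by
    field_simp
  nlinarith

end

end Pool.Agent.W696.QR
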