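import Mathlib
import Pool.Agent.W696.QR.Sub

/-!
Sublinear growth of sums of differences.
-/
set_option autoImplicit false
set_option linter.unusedSectionVars false
open Filter Topology

namespace Pool.Agent.W696.QR

section mon

variable {Z : Type} [AddMonoid Z]

lemma ch_blocks (g : ℕ → UB Z) (a L m : ℕ) : ∀ k : ℕ,
    UB.ch (fun j => UB.ch g (a + j * L) L) k m = UB.ch g (a + k * L) (m * L) := by
  induction m with
  | zero => intro k; rw [zero_mul]; rfl
  | succ m ih =>
    intro k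
    rw [UB.ch_succ, ih (k + 1), show (m + 1) * L = L + m * L by ring, UB.ch_add,
      show a + k * L + L = a + (k + 1) * L by ring]

lemma ch_re (x y : ℕ → UB Z) (m : ℕ) :
    UB.ch (fun j => x j + y j) 0 (m + 1) = x 0 + UB.ch (fun j => y j + x (j + 1)) 0 m + y m := by
  induction m with
  | zero => rw [UB.ch_one, UB.ch_zero, add_zero]
  | succ m ih =>
    rw [UB.ch_succ', ih, UB.ch_succ' _ 0 m, zero_add, zero_add]
    simp only [add_assoc]

end mon

section

variable {X Y : Type} [NormedAddCommGroup X] [NormedSpace ℝ X] [NormedAddCommGroup Y]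
  [NormedSpace ℝ Y] {F : X → Y} {B C : ℝ}

/-- the basic steps -/
def St (p : ℕ → UB X) (W i : ℕ) : UB X := p i + (p (i + W)).map ng

lemma St_bd {p : ℕ → UB X} {ρ : ℝ} (hp : ∀ i, Bd (p i) ρ) (W i : ℕ) : Bd (St p W i) (2 * ρ) :=
  ((hp i).add (hp (i + W)).ng).mono (le_of_eq (by ring))

lemma wnull_pair {U : UB X} {a : StrongDual ℝ (StrongDual ℝ X)} (h : Wk U a) :
    Wk (U.map ng + U) 0 := by
  have h1 := h.ng.add h
  have e : -a + a = 0 := by
    ext φ
    show -(a φ) + a φ = 0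
    ring
  rwa [e] at h1

/-- **Sublinear growth** of sums of differences. -/
theorem diff_lin (hF : CLU F B C) {A : ℝ} (hA : 0 < A)
    (hl : ∀ u v, ‖u - v‖ / A - C ≤ ‖F u - F v‖) (d : Dec Y) {ε R : ℝ} (hε : 0 ≤ ε)
    (hR : 0 ≤ R) (hAu : AusC Y ε R) {ρ : ℝ} {p : ℕ → UB X} (hp : ∀ i, Bd (p i) ρ)
    {w : ℕ → StrongDual ℝ (StrongDual ℝ X)} (hw : ∀ i, Wk (p i) (w i)) (W a m : ℕ) :
    nf (UB.ch (St p W) a ((m + 1) * (2 * W))) 0 ≤ 2 * (W * ρ) +
      2 * (A * ((R + (m + 1) * ε) * (d.kP * (8 * B * (2 * (W * ρ)))))) := by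
  have hB := hF.hB
  have hρ := (hp 0).nonneg
  have hP := d.hP0
  have hpI : ∀ i, IsB (p i) := fun i => (hp i).isB
  set Z : ℕ → UB X := fun k => UB.ch p (a + k * W) W with hZ
  have hZb : ∀ k, Bd (Z k) (W * ρ) := fun k => Bd.ch hp _ _
  have hZw : ∀ k, Wk (Z k) (∑ i ∈ Finset.range W, w (a + k * W + i)) := fun k => Wk.ch hw _ _
  have hHb : ∀ k, Bd ((Z k).map ng + Z k) (2 * (W * ρ)) := fun k =>
    ((hZb k).ng.add (hZb k)).mono (le_of_eq (by ring))
  have hHw : ∀ k, Wk ((Z k).map ng + Z k) 0 := fun k => wnull_pair (hZw k)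
  have hN : ∀ k, UB.ch (fun i => (p (i + W)).map ng) (a + k * W) W = (Z (k + 1)).map ng := by
    intro k
    rw [UB.ch_shift (fun i => (p i).map ng) (a + k * W) W W, hZ]
    simp only
    rw [UB.ch_map, show a + k * W + W = a + (k + 1) * W by ring]
  set g1 : ℕ → UB (X × X) := fun i => (p i).map iL + ((p (i + W)).map ng).map iR with hg1
  set g2 : ℕ → UB (X × X) := fun i => (p i).map iR + ((p (i + W)).map ng).map iL with hg2
  have hb1 : ∀ i, IsB (g1 i) := fun i => ((hp i).iL.add (hp (i + W)).ng.iR).isB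
  have hb2 : ∀ i, IsB (g2 i) := fun i => ((hp i).iR.add (hp (i + W)).ng.iL).isB
  set JB : ℕ → UB (X × X) := fun j =>
    UB.ch g1 (a + (2 * j) * W) W + UB.ch g2 (a + (2 * j + 1) * W) W with hJB
  have hJBb : ∀ j, IsB (JB j) := fun j => (IsB.ch hb1 _ _).add (IsB.ch hb2 _ _)
  have hJs : ∀ j, (JB j).map sm = UB.ch (St p W) (a + j * (2 * W)) (2 * W) := by
    intro j
    rw [hJB]
    simp only
    rw [UB.map_add, UB.ch_map, UB.ch_map, show 2 * W = W + W by ring, UB.ch_add]
    have e1 : (fun i => (g1 i).map sm) = St p W := by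
      funext i
      rw [hg1]
      simp only
      rw [UB.map_add, sm_iL, sm_iR]
      rfl
    have e2 : (fun i => (g2 i).map sm) = St p W := by
      funext i
      rw [hg2]
      simp only
      rw [UB.map_add, sm_iL, sm_iR]
      rfl
    rw [e1, e2, show a + 2 * j * W = a + j * (W + W) by ring,
      show a + (2 * j + 1) * W = a + j * (W + W) + W by ring]
  have hJl : ∀ j, (JB j).map pL = Z (2 * j) + (Z (2 * j + 2)).map ng := by
    intro j
    rw [hJB]
    simp only
    rw [UB.map_add, UB.ch_map, UB.ch_map]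
    have e1 : (fun i => (g1 i).map pL) = p := by
      funext i
      rw [hg1]
      simp only
      rw [UB.map_add, pL_iL, pL_iR, add_zero]
    have e2 : (fun i => (g2 i).map pL) = fun i => (p (i + W)).map ng := by
      funext i
      rw [hg2]
      simp only
      rw [UB.map_add, pL_iL, pL_iR, zero_add]
    rw [e1, e2, hN]
  have hJr : ∀ j, (JB j).map pR = (Z (2 * j + 1)).map ng + Z (2 * j + 1) := by
    intro j
    rw [hJB]
    simp only
    rw [UB.map_add, UB.ch_map, UB.ch_map]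
    have e1 : (fun i => (g1 i).map pR) = fun i => (p (i + W)).map ng := by
      funext i
      rw [hg1]
      simp only
      rw [UB.map_add, pR_iL, pR_iR, zero_add]
    have e2 : (fun i => (g2 i).map pR) = p := by
      funext i
      rw [hg2]
      simp only
      rw [UB.map_add, pR_iL, pR_iR, add_zero]
    rw [e1, e2, hN]
  have t1 : (UB.ch JB 0 (m + 1)).map sm = UB.ch (St p W) a ((m + 1) * (2 * W)) := by
    rw [UB.ch_map]
    have e : (fun i => (JB i).map sm) = fun j => UB.ch (St p W) (a + j * (2 * W)) (2 * W) := by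
      funext j
      exact hJs j
    rw [e, ch_blocks, zero_mul, add_zero]
  have t2 : (UB.ch JB 0 (m + 1)).map pL = Z 0 +
      UB.ch (fun j => (Z (2 * j + 2)).map ng + Z (2 * j + 2)) 0 m + (Z (2 * m + 2)).map ng := by
    rw [UB.ch_map]
    have e : (fun i => (JB i).map pL) = fun j => Z (2 * j) + (Z (2 * j + 2)).map ng := by
      funext j
      exact hJl j
    rw [e, ch_re (fun j => Z (2 * j)) (fun j => (Z (2 * j + 2)).map ng) m]
    rfl
  have t3 : (UB.ch JB 0 (m + 1)).map pR =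
      UB.ch (fun j => (Z (2 * j + 1)).map ng + Z (2 * j + 1)) 0 (m + 1) := by
    rw [UB.ch_map]
    congr 1
    funext j
    exact hJr j
  have h1 := nf_joint (IsB.ch hJBb 0 (m + 1)) 0 0
  have h2 : nf ((UB.ch JB 0 (m + 1)).map sm) 0 ≤ nf ((UB.ch JB 0 (m + 1)).map pL) 0 +
      nf ((UB.ch JB 0 (m + 1)).map pR) 0 := by
    rw [add_zero] at h1
    exact h1
  rw [t1, t2, t3] at h2
  have s1 := sub_lin hF hA hl d hε hR hAu (fun j => hHb (2 * j + 1)) (fun j => hHw (2 * j + 1)) (m + 1)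
  have s2 := sub_lin hF hA hl d hε hR hAu (fun j => hHb (2 * j + 2)) (fun j => hHw (2 * j + 2)) m
  have s3 : A * ((R + m * ε) * (d.kP * (8 * B * (2 * (W * ρ))))) ≤
      A * ((R + (m + 1) * ε) * (d.kP * (8 * B * (2 * (W * ρ))))) := by
    gcongr
    linarith
  have hHI : IsB (UB.ch (fun j => (Z (2 * j + 2)).map ng + Z (2 * j + 2)) 0 m) :=
    IsB.ch (fun j => (hHb (2 * j + 2)).isB) _ _
  have u1 := nf_add_le ((hZb 0).isB.add hHI) (hZb (2 * m + 2)).ng.isB 0 0
  have u2 := nf_add_le (hZb 0).isB hHI 0 0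
  have u3 := nf_le (hZb 0) 0
  have u4 := nf_le (hZb (2 * m + 2)).ng 0
  rw [add_zero] at u1 u2
  rw [norm_zero] at u3 u4
  push_cast at s1
  linarith

end

end Pool.Agent.W696.QR
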