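import Mathlib
import Pool.Agent.W696.QR.Diff

/-!
The conditional values of weighted sums, and the comparison under a shift.
-/
set_option autoImplicit false
set_option linter.unusedSectionVars false
open Filter Topology

namespace Pool.Agent.W696.QR

section

variable {X Y : Type} [NormedAddCommGroup X] [NormedSpace ℝ X] [NormedAddCommGroup Y]
  [NormedSpace ℝ Y] {F : X → Y} {B C : ℝ}

lemma df_isB {U : UB (X × X)} (hU : IsB U) : IsB (U.map df) :=
  hU.map _ 2 fun z => by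
    have h1 := norm_fst_le z
    have h2 := norm_snd_le z
    have h3 := norm_sub_le z.1 z.2
    have h4 : ‖df z‖ = ‖z.1 - z.2‖ := rfl
    linarith

lemma Kf_norm_le (hF : CLU F B C) {U : UB (X × X)} (hU : IsB U) (z : X × X) :
    ‖Kf F U z‖ ≤ B * nf (U.map df) (z.1 - z.2) + C := by
  have hB := hF.hB
  have hC := hF.hC
  have h0 := nf_nonneg (df_isB hU) (z.1 - z.2)
  refine norm_le_of_forall (by positivity) fun φ hφ => ?_
  have h1 : Tendsto (fun h : X × X => φ (F (z.1 + h.1))) (U.u : Filter (X × X))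
    (𝓝 (Wf F (U.map Prod.fst) z.1 φ)) := Wf_spec hF hU.fst z.1 φ
  have h2 : Tendsto (fun h : X × X => φ (F (z.2 + h.2))) (U.u : Filter (X × X))
    (𝓝 (Wf F (U.map Prod.snd) z.2 φ)) := Wf_spec hF hU.snd z.2 φ
  have h3 : Tendsto (fun h : X × X => ‖z.1 - z.2 + (h.1 - h.2)‖) (U.u : Filter (X × X))
    (𝓝 (nf (U.map df) (z.1 - z.2))) := lm_spec ((df_isB hU).bf_norm (z.1 - z.2))
  refine le_of_tendsto_of_tendsto (h1.sub h2) ((h3.const_mul B).add_const C)
    (Filter.Eventually.of_forall fun h => ?_)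
  have h4 : φ (F (z.1 + h.1)) - φ (F (z.2 + h.2)) = φ (F (z.1 + h.1) - F (z.2 + h.2)) :=
    (map_sub φ _ _).symm
  show φ (F (z.1 + h.1)) - φ (F (z.2 + h.2)) ≤ B * ‖z.1 - z.2 + (h.1 - h.2)‖ + C
  rw [h4]
  have h5 : z.1 - z.2 + (h.1 - h.2) = (z.1 + h.1) - (z.2 + h.2) := by abel
  rw [h5]
  calc φ (F (z.1 + h.1) - F (z.2 + h.2)) ≤ ‖φ‖ * ‖F (z.1 + h.1) - F (z.2 + h.2)‖ :=
        (le_abs_self _).trans (φ.le_opNorm _)
    _ ≤ 1 * (B * ‖(z.1 + h.1) - (z.2 + h.2)‖ + C) := by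
        gcongr
        exact hF.le _ _
    _ = _ := one_mul _

lemma TJ_norm_le (d : Dec Y) (hF : CLU F B C) {V U : UB (X × X)} (hV : IsB V) (hU : IsB U) :
    ‖TJ d F V U‖ ≤ d.kQ * (B * nf ((V + U).map df) 0 + C) := by
  have hB := hF.hB
  have hQ := d.hQ0
  have b1 : Bf V (fun z => d.Q (Kf F U z)) := bf_Q (Kf_bf0 hF hV hU) d
  have b2 : Bf V (fun z : X × X => nf (U.map df) (z.1 - z.2)) := by
    have h1 := nf_bf (df_isB hV) (df_isB hU) 0
    obtain ⟨D, hD⟩ := h1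
    refine ⟨D, ?_⟩
    rw [UB.ev_map] at hD
    filter_upwards [hD] with z hz
    rw [zero_add] at hz
    exact hz
  have e1 : nf ((V + U).map df) 0 = lm V (fun z : X × X => nf (U.map df) (z.1 - z.2)) := by
    rw [UB.map_add, nf_conv (df_isB hV) (df_isB hU), lm_map]
    congr 1
    funext z
    rw [zero_add]
    rfl
  unfold TJ
  rw [← lm_norm b1, e1]
  have e2 : d.kQ * (B * lm V (fun z : X × X => nf (U.map df) (z.1 - z.2)) + C) =
      lm V (fun z : X × X => d.kQ * (B * nf (U.map df) (z.1 - z.2) + C)) := by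
    rw [lm_mul_left _ ((b2.mul_left _).add (Bf.const V _)),
      lm_add (b2.mul_left _) (Bf.const V _), lm_mul_left _ b2, lm_const]
  rw [e2]
  refine lm_mono b1.norm (((b2.mul_left _).add (Bf.const V _)).mul_left _)
    (Filter.Eventually.of_forall fun z => ?_)
  refine (d.hQ _).trans ?_
  gcongr
  exact Kf_norm_le hF hU z

/-- the weighted steps -/
def Gc (p : ℕ → UB X) (W : ℕ) (c : ℕ → ℝ) (i : ℕ) : UB X := (St p W i).map (sc (c i))

lemma sc_zero_map (U : UB X) : U.map (sc (0 : ℝ)) = 0 := by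
  have h : U.map (sc (0 : ℝ)) = U.map (fun _ => (0 : X)) := by
    refine UB.ext_ev fun p => ?_
    rw [UB.ev_map, UB.ev_map]
    simp [sc]
  rw [h, UB.map_zero_fun]

lemma Gc_zero (p : ℕ → UB X) (W : ℕ) (c : ℕ → ℝ) {i : ℕ} (h : c i = 0) : Gc p W c i = 0 := by
  unfold Gc
  rw [h, sc_zero_map]

lemma Gc_bd {p : ℕ → UB X} {ρ : ℝ} (hp : ∀ i, Bd (p i) ρ) (W : ℕ) {c : ℕ → ℝ} {s : ℝ}
    (hc : ∀ i, |c i| ≤ s) (i : ℕ) : Bd (Gc p W c i) (s * (2 * ρ)) := by
  have h1 := (St_bd hp W i).nonneg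
  exact ((St_bd hp W i).sc (c i)).mono (mul_le_mul_of_nonneg_right (hc i) h1)

lemma Gc_isB {p : ℕ → UB X} {ρ : ℝ} (hp : ∀ i, Bd (p i) ρ) (W : ℕ) (c : ℕ → ℝ)
    (i : ℕ) : IsB (Gc p W c i) := ((St_bd hp W i).sc (c i)).isB

/-- the conditional finite dimensional part -/
noncomputable def Th (d : Dec Y) (F : X → Y) (p : ℕ → UB X) (W : ℕ) (c : ℕ → ℝ) (n j : ℕ) :
    Fin d.m → ℝ :=
  Tf d F (UB.ch (Gc p W c) 0 j) (UB.ch (Gc p W c) j (n - j))

/-- pairs of multiples -/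
def pr (c c' : ℝ) : X →+ X × X where
  toFun := fun x => (c • x, c' • x)
  map_zero' := by simp
  map_add' := fun x y => by rw [Prod.mk_add_mk, smul_add, smul_add]

lemma df_pr (U : UB X) (c c' : ℝ) : (U.map (pr c c')).map df = U.map (sc (c - c')) := by
  refine UB.ext_ev fun p => ?_
  rw [UB.ev_map, UB.ev_map, UB.ev_map]
  simp only [pr, df, sc, AddMonoidHom.coe_mk, ZeroHom.coe_mk, sub_smul]

/-- **Comparison** of two weights. -/
theorem comp (d : Dec Y) (hF : CLU F B C) {ρ : ℝ} {p : ℕ → UB X} (hp : ∀ i, Bd (p i) ρ)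
    (W : ℕ) (c c' : ℕ → ℝ) {n j : ℕ} (hj : j ≤ n) :
    ‖Th d F p W c n j - Th d F p W c' n j‖ ≤
      d.kQ * (B * nf (UB.ch (Gc p W (fun i => c i - c' i)) 0 n) 0 + C) := by
  set g : ℕ → UB (X × X) := fun i => (St p W i).map (pr (c i) (c' i)) with hg
  have hgb : ∀ i, IsB (g i) := by
    intro i
    refine (St_bd hp W i).isB.map _ (max |c i| |c' i|) fun x => ?_
    have : ‖((c i • x, c' i • x) : X × X)‖ ≤ max |c i| |c' i| * ‖x‖ := by
      rw [Prod.norm_mk, norm_smul, norm_smul, Real.norm_eq_abs, Real.norm_eq_abs]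
      refine max_le ?_ ?_
      · gcongr; exact le_max_left _ _
      · gcongr; exact le_max_right _ _
    exact this
  have h1 := TJ_norm_le d hF (IsB.ch hgb 0 j) (IsB.ch hgb j (n - j))
  have e0 : UB.ch g 0 j + UB.ch g j (n - j) = UB.ch g 0 n := by
    have := UB.ch_add g 0 j (n - j)
    rw [zero_add, Nat.add_sub_cancel' hj] at this
    exact this.symm
  have e1 : ∀ a L, (UB.ch g a L).map pL = UB.ch (Gc p W c) a L := by
    intro a L
    rw [UB.ch_map]
    rfl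
  have e2 : ∀ a L, (UB.ch g a L).map pR = UB.ch (Gc p W c') a L := by
    intro a L
    rw [UB.ch_map]
    rfl
  have e3 : (UB.ch g 0 n).map df = UB.ch (Gc p W (fun i => c i - c' i)) 0 n := by
    rw [UB.ch_map]
    congr 1
    funext i
    exact df_pr _ _ _
  rw [e0, e3, TJ_eq d hF (IsB.ch hgb 0 j) (IsB.ch hgb j (n - j)), e1, e1, e2, e2] at h1
  exact h1

/-- shifted weights -/
def sh (c : ℕ → ℝ) : ℕ → ℝ
  | 0 => 0
  | (i + 1) => c i

lemma Gc_sh (p : ℕ → UB X) (W : ℕ) (c : ℕ → ℝ) (a L : ℕ) :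
    UB.ch (Gc p W (sh c)) (a + 1) L = UB.ch (Gc (fun i => p (i + 1)) W c) a L := by
  rw [← UB.ch_shift]
  congr 1
  funext i
  unfold Gc St
  rw [show i + 1 + W = i + W + 1 by ring]
  rfl

lemma Th_sh (d : Dec Y) (p : ℕ → UB X) (W : ℕ) (c : ℕ → ℝ) (n j : ℕ) :
    Th d F p W (sh c) (n + 1) (j + 1) = Th d F (fun i => p (i + 1)) W c n j := by
  unfold Th
  rw [UB.ch_succ, Gc_zero p W (sh c) (i := 0) rfl, zero_add, Gc_sh, Nat.add_sub_add_right, Gc_sh]

lemma Th_ext (d : Dec Y) (p : ℕ → UB X) (W : ℕ) {c : ℕ → ℝ} {n j : ℕ} (hn : c n = 0)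
    (hj : j ≤ n) : Th d F p W c (n + 1) j = Th d F p W c n j := by
  unfold Th
  rw [show n + 1 - j = (n - j) + 1 by omega, UB.ch_succ' (Gc p W c) j (n - j),
    show j + (n - j) = n by omega, Gc_zero p W c hn, add_zero]

/-- the trapezoid -/
noncomputable def tz (s : ℝ) (N K : ℕ) (i : ℕ) : ℝ :=
  s / N * ((min (min i N) (2 * N + K - i) : ℕ) : ℝ)

lemma tz_zero (s : ℝ) (N K : ℕ) : tz s N K 0 = 0 := by
  unfold tz
  rw [show min (min 0 N) (2 * N + K - 0) = 0 by omega, Nat.cast_zero, mul_zero]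

lemma tz_end (s : ℝ) (N K : ℕ) : tz s N K (2 * N + K) = 0 := by
  unfold tz
  rw [show min (min (2 * N + K) N) (2 * N + K - (2 * N + K)) = 0 by omega, Nat.cast_zero, mul_zero]

lemma tz_mid {s : ℝ} {N K i : ℕ} (hN : 0 < N) (h1 : N ≤ i) (h2 : i ≤ N + K) : tz s N K i = s := by
  unfold tz
  rw [show min (min i N) (2 * N + K - i) = N by omega]
  have : (N : ℝ) ≠ 0 := by positivity
  field_simp

lemma tz_abs {s : ℝ} (hs : 0 ≤ s) {N K : ℕ} (hN : 0 < N) (i : ℕ) : |tz s N K i| ≤ s := by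
  unfold tz
  rw [abs_of_nonneg (by positivity)]
  have h1 : ((min (min i N) (2 * N + K - i) : ℕ) : ℝ) ≤ N := by
    exact_mod_cast (min_le_left _ _).trans (min_le_right _ _)
  have h2 : (0 : ℝ) < N := by exact_mod_cast hN
  calc s / N * ((min (min i N) (2 * N + K - i) : ℕ) : ℝ) ≤ s / N * N := by gcongr
    _ = s := by field_simp

lemma tz_up {s : ℝ} {N K i : ℕ} (h : i < N) : tz s N K (i + 1) - tz s N K i = s / N := by
  unfold tz
  rw [show min (min i N) (2 * N + K - i) = i by omega,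
    show min (min (i + 1) N) (2 * N + K - (i + 1)) = i + 1 by omega]
  push_cast
  ring

lemma tz_down {s : ℝ} {N K i : ℕ} (h1 : N + K ≤ i) (h2 : i < 2 * N + K) :
    tz s N K (i + 1) - tz s N K i = -(s / N) := by
  unfold tz
  obtain ⟨k, hk⟩ : ∃ k, 2 * N + K - i = k + 1 := ⟨2 * N + K - i - 1, by omega⟩
  rw [show min (min i N) (2 * N + K - i) = k + 1 by omega,
    show min (min (i + 1) N) (2 * N + K - (i + 1)) = k by omega]
  push_cast
  ring

/-- the size of the change under a shift -/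
lemma nf_shift {p : ℕ → UB X} {ρ : ℝ} (hp : ∀ i, Bd (p i) ρ) (W : ℕ) {s : ℝ} (hs : 0 ≤ s)
    {N K : ℕ} (hN : 0 < N) {M : ℝ} (hM : ∀ a, nf (UB.ch (St p W) a N) 0 ≤ M) :
    nf (UB.ch (Gc p W (fun i => tz s N K i - sh (tz s N K) i)) 0 (2 * N + K + 1)) 0 ≤
      2 * (s / N * M) := by
  set c : ℕ → ℝ := fun i => tz s N K i - sh (tz s N K) i with hc
  have hStI : ∀ i, IsB (St p W i) := fun i => (St_bd hp W i).isB
  have h0 : c 0 = 0 := by
    show tz s N K 0 - 0 = 0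
    rw [tz_zero, sub_zero]
  have hcs : ∀ i, c (i + 1) = tz s N K (i + 1) - tz s N K i := fun i => rfl
  have e1 : UB.ch (Gc p W c) 1 N = (UB.ch (St p W) 1 N).map (sc (s / N)) := by
    rw [UB.ch_map]
    refine UB.ch_congr 1 N fun i h1 h2 => ?_
    obtain ⟨k, rfl⟩ : ∃ k, i = k + 1 := ⟨i - 1, by omega⟩
    unfold Gc
    rw [hcs, tz_up (by omega)]
  have e2 : UB.ch (Gc p W c) (1 + N) K = 0 := by
    rw [← UB.ch_zero_fun (1 + N) K]
    refine UB.ch_congr (1 + N) K fun i h1 h2 => ?_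
    obtain ⟨k, rfl⟩ : ∃ k, i = k + 1 := ⟨i - 1, by omega⟩
    apply Gc_zero
    rw [hcs, tz_mid hN (by omega) (by omega), tz_mid hN (by omega) (by omega), sub_self]
  have e3 : UB.ch (Gc p W c) (1 + N + K) N = (UB.ch (St p W) (1 + N + K) N).map (sc (-(s / N))) := by
    rw [UB.ch_map]
    refine UB.ch_congr (1 + N + K) N fun i h1 h2 => ?_
    obtain ⟨k, rfl⟩ : ∃ k, i = k + 1 := ⟨i - 1, by omega⟩
    unfold Gc
    rw [hcs, tz_down (by omega) (by omega)]
  have e4 : UB.ch (Gc p W c) 0 (2 * N + K + 1) =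
      (UB.ch (St p W) 1 N).map (sc (s / N)) +
        (UB.ch (St p W) (1 + N + K) N).map (sc (-(s / N))) := by
    rw [show 2 * N + K + 1 = 1 + (N + (K + N)) by ring, UB.ch_add, UB.ch_one,
      Gc_zero p W c h0, zero_add, zero_add, UB.ch_add, UB.ch_add, e1, e2, e3, zero_add]
  rw [e4]
  have b1 : IsB ((UB.ch (St p W) 1 N).map (sc (s / N))) := by
    obtain ⟨ρ', h⟩ := IsB.ch hStI 1 N
    exact (h.sc _).isB
  have b2 : IsB ((UB.ch (St p W) (1 + N + K) N).map (sc (-(s / N)))) := by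
    obtain ⟨ρ', h⟩ := IsB.ch hStI (1 + N + K) N
    exact (h.sc _).isB
  have h1 := nf_add_le b1 b2 0 0
  rw [add_zero, nf_sc (IsB.ch hStI 1 N), nf_sc (IsB.ch hStI (1 + N + K) N), abs_neg,
    abs_of_nonneg (by positivity : (0 : ℝ) ≤ s / N)] at h1
  refine h1.trans ?_
  have h2 := hM 1
  have h3 := hM (1 + N + K)
  have h4 : (0 : ℝ) ≤ s / N := by positivity
  nlinarith

/-- **Shift comparison.** -/
theorem shift_comp (d : Dec Y) (hF : CLU F B C) {ρ : ℝ} {p : ℕ → UB X} (hp : ∀ i, Bd (p i) ρ)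
    (W : ℕ) {s : ℝ} (hs : 0 ≤ s) {N K : ℕ} (hN : 0 < N) {M : ℝ}
    (hM : ∀ a, nf (UB.ch (St p W) a N) 0 ≤ M) {j : ℕ} (hj : j < 2 * N + K) :
    ‖Th d F p W (tz s N K) (2 * N + K) (j + 1) -
        Th d F (fun i => p (i + 1)) W (tz s N K) (2 * N + K) j‖ ≤
      d.kQ * (B * (2 * (s / N * M)) + C) := by
  have hB := hF.hB
  have hQ := d.hQ0
  rw [← Th_sh d p W, ← Th_ext d p W (tz_end s N K) (show j + 1 ≤ 2 * N + K by omega)]
  refine (comp d hF hp W _ _ (by omega)).trans ?_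
  gcongr
  exact nf_shift hp W hs hN hM

end

end Pool.Agent.W696.QR
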