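import Mathlib
import Pool.Agent.W696.QR.Comp

/-!
The conditional values are slowly varying for a stationary random sequence.
-/
set_option autoImplicit false
set_option linter.unusedSectionVars false
open Filter Topology

namespace Pool.Agent.W696.QR

section

variable {X Y : Type} [NormedAddCommGroup X] [NormedSpace ℝ X] [NormedAddCommGroup Y]
  [NormedSpace ℝ Y] {F : X → Y} {B C : ℝ}

lemma Tf_norm_le (d : Dec Y) (hF : CLU F B C) {V U : UB X} {ρ ρ' : ℝ} (hV : Bd V ρ)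
    (hU : Bd U ρ') : ‖Tf d F V U‖ ≤ d.kQ * (‖F 0‖ + B * (ρ + ρ') + C) := by
  have hB := hF.hB
  have hQ := d.hQ0
  refine lm_norm_le ?_
  unfold Bd at hV
  filter_upwards [hV] with x hx
  refine (d.hQ _).trans ?_
  gcongr
  refine (Wf_norm_le hF hU x).trans ?_
  gcongr

lemma Th_norm_le (d : Dec Y) (hF : CLU F B C) {ρ : ℝ} {p : ℕ → UB X} (hp : ∀ i, Bd (p i) ρ)
    (W : ℕ) {c : ℕ → ℝ} {s : ℝ} (hc : ∀ i, |c i| ≤ s) {n j : ℕ} (hj : j ≤ n) :
    ‖Th d F p W c n j‖ ≤ d.kQ * (‖F 0‖ + B * (n * (s * (2 * ρ))) + C) := by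
  have h1 := Tf_norm_le d hF (Bd.ch (Gc_bd hp W hc) 0 j) (Bd.ch (Gc_bd hp W hc) j (n - j))
  have h2 : (j : ℝ) * (s * (2 * ρ)) + ((n - j : ℕ) : ℝ) * (s * (2 * ρ)) = n * (s * (2 * ρ)) := by
    rw [Nat.cast_sub hj]
    ring
  rw [h2] at h1
  exact h1

lemma Th_congr (d : Dec Y) {p p' : ℕ → UB X} (W : ℕ) (c : ℕ → ℝ) {n j : ℕ} (hj : j ≤ n)
    (h : ∀ i, i ≤ n + W → p i = p' i) : Th d F p W c n j = Th d F p' W c n j := by
  have hG : ∀ i, i < n → Gc p W c i = Gc p' W c i := by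
    intro i hi
    unfold Gc St
    rw [h i (by omega), h (i + W) (by omega)]
  unfold Th
  rw [UB.ch_congr 0 j fun i _ h2 => hG i (by omega),
    UB.ch_congr j (n - j) fun i _ h2 => hG i (by omega)]

/-- **Slow variation.** -/
theorem slow {Q : Type} (law : Q → UB X) {ρ : ℝ} (hlaw : ∀ q, Bd (law q) ρ) (d : Dec Y)
    (hF : CLU F B C) (W : ℕ) {s : ℝ} (hs : 0 ≤ s) {N K : ℕ} (hN : 0 < N) {M : ℝ}
    (hM : ∀ (q : ℕ → Q) (a : ℕ), nf (UB.ch (St (fun i => law (q i)) W) a N) 0 ≤ M)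
    (ν : Ultrafilter (ℕ → Q)) {ns : ℕ} (hns : 2 * N + K + W ≤ ns)
    (hν : ∀ S : Set (ℕ → Q), (∀ q q' : ℕ → Q, (∀ i ≤ ns, q i = q' i) → q ∈ S → q' ∈ S) →
          ((∀ᶠ q in (ν : Filter (ℕ → Q)), q ∈ S) ↔
            ∀ᶠ q in (ν : Filter (ℕ → Q)), (fun i => q (i + 1)) ∈ S))
    {κ : ℝ} (hκ : 0 < κ) :
    ∀ᶠ q in (ν : Filter (ℕ → Q)), ∀ j ∈ Finset.range (2 * N + K),
      ‖Th d F (fun i => law (q i)) W (tz s N K) (2 * N + K) (j + 1) -
        Th d F (fun i => law (q i)) W (tz s N K) (2 * N + K) j‖ ≤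
      d.kQ * (B * (2 * (s / N * M)) + C) + 2 * κ := by
  set n := 2 * N + K with hn
  set f : ℕ → (ℕ → Q) → (Fin d.m → ℝ) := fun j q =>
    Th d F (fun i => law (q i)) W (tz s N K) n j with hf
  set ν' : UB (ℕ → Q) := ⟨ν⟩ with hν'
  have hbf : ∀ j, j ≤ n → Bf ν' (f j) := fun j hj =>
    ⟨_, Filter.Eventually.of_forall fun q => Th_norm_le d hF (fun i => hlaw (q i)) W
      (tz_abs hs hN) hj⟩
  have h1 : ∀ j, j ≤ n → Tendsto (f j) (ν : Filter (ℕ → Q)) (𝓝 (lm ν' (f j))) := fun j hj =>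
    lm_spec (hbf j hj)
  have h2 : ∀ j, j ≤ n → Tendsto (fun q => f j (fun i => q (i + 1))) (ν : Filter (ℕ → Q))
      (𝓝 (lm ν' (f j))) := by
    intro j hj
    rw [tendsto_def]
    intro O hO
    have h3 : ∀ᶠ q in (ν : Filter (ℕ → Q)), q ∈ {q | f j q ∈ O} := h1 j hj hO
    rw [hν] at h3
    · exact h3
    · intro q q' hqq hq
      have h4 : f j q = f j q' := Th_congr d W _ hj fun i hi => by rw [hqq i (by omega)]
      show f j q' ∈ O
      rw [← h4]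
      exact hq
  have h5 : ∀ j, j < n → ‖lm ν' (f (j + 1)) - lm ν' (f j)‖ ≤
      d.kQ * (B * (2 * (s / N * M)) + C) := by
    intro j hj
    have h6 := ((h1 (j + 1) (by omega)).sub (h2 j (by omega))).norm
    refine le_of_tendsto h6 (Filter.Eventually.of_forall fun q => ?_)
    exact shift_comp d hF (fun i => hlaw (q i)) W hs hN (hM q) hj
  have h7 : ∀ᶠ q in (ν : Filter (ℕ → Q)), ∀ j ∈ Finset.range (n + 1),
      ‖f j q - lm ν' (f j)‖ < κ := by
    rw [Filter.eventually_all_finset]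
    intro j hj
    have := (Metric.tendsto_nhds.1 (h1 j (by simpa [Nat.lt_succ_iff] using hj))) κ hκ
    filter_upwards [this] with q hq
    rwa [dist_eq_norm] at hq
  filter_upwards [h7] with q hq
  intro j hj
  rw [Finset.mem_range] at hj
  have h8 := hq j (by rw [Finset.mem_range]; omega)
  have h9 := hq (j + 1) (by rw [Finset.mem_range]; omega)
  have h10 := h5 j hj
  have e : f (j + 1) q - f j q = (f (j + 1) q - lm ν' (f (j + 1))) +
      (lm ν' (f (j + 1)) - lm ν' (f j)) - (f j q - lm ν' (f j)) := by abel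
  show ‖f (j + 1) q - f j q‖ ≤ _
  rw [e]
  have h11 := norm_sub_le ((f (j + 1) q - lm ν' (f (j + 1))) +
      (lm ν' (f (j + 1)) - lm ν' (f j))) (f j q - lm ν' (f j))
  have h12 := norm_add_le (f (j + 1) q - lm ν' (f (j + 1))) (lm ν' (f (j + 1)) - lm ν' (f j))
  linarith

end

end Pool.Agent.W696.QR
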