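import Mathlib
import Pool.Agent.W696.QR.Comp

/-!
Sliding a window.
-/
set_option autoImplicit false
set_option linter.unusedSectionVars false
open Filter Topology

namespace Pool.Agent.W696.QR

section

variable {X Y : Type} [NormedAddCommGroup X] [NormedSpace ℝ X] [NormedAddCommGroup Y]
  [NormedSpace ℝ Y] {F : X → Y} {B C : ℝ}

lemma dg_pL (G : ℕ → UB X) (a L : ℕ) :
    (UB.ch (fun i => (G i).map dg) a L).map pL = UB.ch G a L := by
  rw [UB.ch_map]
  rfl

lemma dg_pR (G : ℕ → UB X) (a L : ℕ) :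
    (UB.ch (fun i => (G i).map dg) a L).map pR = UB.ch G a L := by
  rw [UB.ch_map]
  rfl

lemma iL_pL (G : ℕ → UB X) (a L : ℕ) :
    (UB.ch (fun i => (G i).map iL) a L).map pL = UB.ch G a L := by
  rw [UB.ch_map]
  rfl

lemma iR_pR (G : ℕ → UB X) (a L : ℕ) :
    (UB.ch (fun i => (G i).map iR) a L).map pR = UB.ch G a L := by
  rw [UB.ch_map]
  rfl

lemma iL_pR (G : ℕ → UB X) (a L : ℕ) :
    (UB.ch (fun i => (G i).map iL) a L).map pR = 0 := by
  rw [UB.ch_map]
  simp only [pR_iL]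
  exact UB.ch_zero_fun a L

lemma iR_pL (G : ℕ → UB X) (a L : ℕ) :
    (UB.ch (fun i => (G i).map iR) a L).map pL = 0 := by
  rw [UB.ch_map]
  simp only [pL_iR]
  exact UB.ch_zero_fun a L

lemma dg_df (G : ℕ → UB X) (a L : ℕ) :
    (UB.ch (fun i => (G i).map dg) a L).map df = 0 := by
  rw [UB.ch_map]
  simp only [df_dg]
  exact UB.ch_zero_fun a L

lemma iL_df (G : ℕ → UB X) (a L : ℕ) :
    (UB.ch (fun i => (G i).map iL) a L).map df = UB.ch G a L := by
  rw [UB.ch_map]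
  simp only [df_iL]

lemma iR_df (G : ℕ → UB X) (a L : ℕ) :
    (UB.ch (fun i => (G i).map iR) a L).map df = (UB.ch G a L).map ng := by
  rw [UB.ch_map, UB.ch_map]
  simp only [df_iR]

/-- **Window.** The estimate in the target. -/
theorem window_up (hF : CLU F B C) {A : ℝ} (hA : 0 < A)
    (hl : ∀ u v, ‖u - v‖ / A - C ≤ ‖F u - F v‖) (d : Dec Y) {ε R : ℝ} (hε : 0 ≤ ε)
    (hR : 0 ≤ R) (hAu : AusC Y ε R) {ρ : ℝ} {G : ℕ → UB X} (hG : ∀ i, Bd (G i) ρ)
    {N K n : ℕ} (hn : N + K ≤ n) {θ : ℝ} (hθ : 0 ≤ θ)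
    (hT : ∀ j, N ≤ j → j < N + K →
      ‖Tf d F (UB.ch G 0 (j + 1)) (UB.ch G (j + 1) (n - (j + 1))) -
        Tf d F (UB.ch G 0 j) (UB.ch G j (n - j))‖ ≤ θ) :
    nf (UB.ch G N K + (UB.ch G N K).map ng) 0 / A - C ≤
      R * (d.kP * (2 * (2 * B * ρ + C))) + (n + K) * (ε * (d.kP * (2 * (2 * B * ρ + C)))) +
        2 * K * (d.kσ * θ) := by
  have hB := hF.hB
  have hC := hF.hC
  have hρ := (hG 0).nonneg
  have hP := d.hP0
  have hσ := d.hσ0
  set r := d.kP * (2 * (2 * B * ρ + C)) with hr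
  have hr0 : 0 ≤ r := by positivity
  set T : ℕ → (Fin d.m → ℝ) := fun j => Tf d F (UB.ch G 0 j) (UB.ch G j (n - j)) with hTd
  obtain ⟨M, hM⟩ : ∃ M, n = N + K + M := ⟨n - (N + K), by omega⟩
  set g1 : ℕ → UB (X × X) := fun i => (G i).map dg with hg1
  set g2 : ℕ → UB (X × X) := fun i => (G i).map iL with hg2
  set g3 : ℕ → UB (X × X) := fun i => (G i).map iR with hg3
  have hb1 : ∀ i, Bd (g1 i) ρ := fun i => (hG i).dg
  have hb2 : ∀ i, Bd (g2 i) ρ := fun i => (hG i).iL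
  have hb3 : ∀ i, Bd (g3 i) ρ := fun i => (hG i).iR
  have hI1 : ∀ a L, IsB (UB.ch g1 a L) := IsB.ch fun i => (hb1 i).isB
  have hI2 : ∀ a L, IsB (UB.ch g2 a L) := IsB.ch fun i => (hb2 i).isB
  have hI3 : ∀ a L, IsB (UB.ch g3 a L) := IsB.ch fun i => (hb3 i).isB
  have hTz : ∀ V U : UB (X × X), IsB V → IsB U → V.map pL = V.map pR → U.map pL = U.map pR →
      TJ d F V U = 0 := by
    intro V U hV hU h1 h2
    rw [TJ_eq d hF hV hU, h1, h2, sub_self]
  set U4 : UB (X × X) := UB.ch g1 (N + K) M with hU4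
  set U3 : UB (X × X) := UB.ch g3 N K + U4 with hU3
  set U2 : UB (X × X) := UB.ch g2 N K + U3 with hU2
  have hU4I : IsB U4 := hI1 _ _
  have hU3I : IsB U3 := (hI3 _ _).add hU4I
  have hU2I : IsB U2 := (hI2 _ _).add hU3I
  set V1 : UB (X × X) := UB.ch g1 0 N with hV1
  set V2 : UB (X × X) := V1 + UB.ch g2 N K with hV2
  set V3 : UB (X × X) := V2 + UB.ch g3 N K with hV3
  have hV1I : IsB V1 := hI1 _ _
  have hV2I : IsB V2 := hV1I.add (hI2 _ _)
  have hV3I : IsB V3 := hV2I.add (hI3 _ _)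
  clear_value U2 U3 U4 V3 V2 V1
  have c4l : U4.map pL = UB.ch G (N + K) M := by rw [hU4, hg1, dg_pL]
  have c4r : U4.map pR = UB.ch G (N + K) M := by rw [hU4, hg1, dg_pR]
  have c3l : U3.map pL = UB.ch G (N + K) M := by
    rw [hU3, UB.map_add, c4l, hg3, iR_pL, zero_add]
  have c3r : U3.map pR = UB.ch G N (K + M) := by
    rw [hU3, UB.map_add, c4r, hg3, iR_pR, ← UB.ch_add]
  have c2l : U2.map pL = UB.ch G N (K + M) := by
    rw [hU2, UB.map_add, c3l, hg2, iL_pL, ← UB.ch_add]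
  have c2r : U2.map pR = UB.ch G N (K + M) := by
    rw [hU2, UB.map_add, c3r, hg2, iL_pR, zero_add]
  have v1l : V1.map pL = UB.ch G 0 N := by rw [hV1, hg1, dg_pL]
  have v1r : V1.map pR = UB.ch G 0 N := by rw [hV1, hg1, dg_pR]
  have v2l : V2.map pL = UB.ch G 0 (N + K) := by
    rw [hV2, UB.map_add, v1l, hg2, iL_pL, UB.ch_add, zero_add]
  have v2r : V2.map pR = UB.ch G 0 N := by
    rw [hV2, UB.map_add, v1r, hg2, iL_pR, add_zero]
  have v3l : V3.map pL = UB.ch G 0 (N + K) := by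
    rw [hV3, UB.map_add, v2l, hg3, iR_pL, add_zero]
  have v3r : V3.map pR = UB.ch G 0 (N + K) := by
    rw [hV3, UB.map_add, v2r, hg3, iR_pR, UB.ch_add, zero_add]
  -- segment 4
  have s4 := chain hF d hε hAu le_rfl hb1 IsB.zero M (N + K) V3 hV3I (fun i hi => by
    rw [hTz _ _ (hV3I.add (hI1 _ _)) ((hI1 _ _).add IsB.zero)
        (by rw [UB.map_add, UB.map_add, v3l, v3r, hg1, dg_pL, dg_pR])
        (by rw [add_zero, hg1, dg_pL, dg_pR]),
      hTz _ _ (hV3I.add (hI1 _ _)) ((hI1 _ _).add IsB.zero)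
        (by rw [UB.map_add, UB.map_add, v3l, v3r, hg1, dg_pL, dg_pR])
        (by rw [add_zero, hg1, dg_pL, dg_pR]), sub_zero, norm_zero])
  -- segment 3
  have q3 : ∀ i, i ≤ K → TJ d F (V2 + UB.ch g3 N i) (UB.ch g3 (N + i) (K - i) + U4) =
      T (N + K) - T (N + i) := by
    intro i hi
    rw [TJ_eq d hF (hV2I.add (hI3 _ _)) ((hI3 _ _).add hU4I), UB.map_add, UB.map_add, UB.map_add,
      UB.map_add, v2l, v2r, c4l, c4r, hg3, iR_pL, iR_pL, iR_pR, iR_pR, add_zero, zero_add, hTd]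
    simp only
    have e1 : UB.ch G 0 N + UB.ch G N i = UB.ch G 0 (N + i) := by
      rw [UB.ch_add, zero_add]
    have e2 : UB.ch G (N + i) (K - i) + UB.ch G (N + K) M = UB.ch G (N + i) (n - (N + i)) := by
      rw [show n - (N + i) = (K - i) + M by omega, UB.ch_add, show N + i + (K - i) = N + K by omega]
    rw [e1, e2, show n - (N + K) = M by omega]
  have s3 := chain hF d hε hAu hθ hb3 hU4I K N V2 hV2I (fun i hi => by
    rw [show N + i + 1 = N + (i + 1) by ring, show K - i - 1 = K - (i + 1) by omega,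
      q3 (i + 1) (by omega), q3 i hi.le]
    have := hT (N + i) (by omega) (by omega)
    have e : T (N + K) - T (N + (i + 1)) - (T (N + K) - T (N + i)) =
        -(T (N + i + 1) - T (N + i)) := by
      rw [show N + (i + 1) = N + i + 1 by ring]
      abel
    rw [e, norm_neg]
    exact this)
  -- segment 2
  have q2 : ∀ i, i ≤ K → TJ d F (V1 + UB.ch g2 N i) (UB.ch g2 (N + i) (K - i) + U3) =
      T (N + i) - T N := by
    intro i hi
    rw [TJ_eq d hF (hV1I.add (hI2 _ _)) ((hI2 _ _).add hU3I), UB.map_add, UB.map_add, UB.map_add,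
      UB.map_add, v1l, v1r, c3l, c3r, hg2, iL_pL, iL_pL, iL_pR, iL_pR, add_zero, zero_add, hTd]
    simp only
    have e1 : UB.ch G 0 N + UB.ch G N i = UB.ch G 0 (N + i) := by
      rw [UB.ch_add, zero_add]
    have e2 : UB.ch G (N + i) (K - i) + UB.ch G (N + K) M = UB.ch G (N + i) (n - (N + i)) := by
      rw [show n - (N + i) = (K - i) + M by omega, UB.ch_add, show N + i + (K - i) = N + K by omega]
    rw [e1, e2, show n - N = K + M by omega]
  have s2 := chain hF d hε hAu hθ hb2 hU3I K N V1 hV1I (fun i hi => by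
    rw [show N + i + 1 = N + (i + 1) by ring, show K - i - 1 = K - (i + 1) by omega,
      q2 (i + 1) (by omega), q2 i hi.le]
    have := hT (N + i) (by omega) (by omega)
    have e : T (N + (i + 1)) - T N - (T (N + i) - T N) = T (N + i + 1) - T (N + i) := by
      rw [show N + (i + 1) = N + i + 1 by ring]
      abel
    rw [e]
    exact this)
  -- segment 1
  have s1 := chain hF d hε hAu le_rfl hb1 hU2I N 0 0 IsB.zero (fun i hi => by
    rw [hTz _ _ (IsB.zero.add (hI1 _ _)) ((hI1 _ _).add hU2I)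
        (by rw [zero_add, hg1, dg_pL, dg_pR])
        (by rw [UB.map_add, UB.map_add, c2l, c2r, hg1, dg_pL, dg_pR]),
      hTz _ _ (IsB.zero.add (hI1 _ _)) ((hI1 _ _).add hU2I)
        (by rw [zero_add, hg1, dg_pL, dg_pR])
        (by rw [UB.map_add, UB.map_add, c2l, c2r, hg1, dg_pL, dg_pR]), sub_zero, norm_zero])
  rw [NJ_start d (by rw [UB.map_add, UB.map_add, c2l, c2r, hg1, dg_pL, dg_pR]), ← hr,
    max_eq_right (show 0 ≤ R * r by positivity), zero_add, ← hV1] at s1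
  rw [← hU4, add_zero] at s4
  have h4 := NJ_end d hF hA hl (hV3I.add (hI1 (N + K) M))
  have hdf : (V3 + UB.ch g1 (N + K) M).map df = UB.ch G N K + (UB.ch G N K).map ng := by
    rw [hV3, hV2, UB.map_add, UB.map_add, UB.map_add, hV1, hg1, dg_df, dg_df, hg2, iL_df, hg3,
      iR_df, zero_add, add_zero]
  rw [hdf] at h4
  have h5 := le_max_left (NJ d F (V3 + UB.ch g1 (N + K) M) 0) (R * r)
  have hM' : (n : ℝ) = N + K + M := by
    rw [hM]
    push_cast
    ring
  rw [hM']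
  rw [← hr, ← hV2, ← hU2] at s2
  rw [← hr, ← hV3, ← hU3] at s3
  rw [← hr] at s4
  rw [← hU4] at h4 h5
  have t1 := h4.trans (h5.trans (s4.trans (add_le_add_left (s3.trans (add_le_add_left (s2.trans
    (add_le_add_left s1 _)) _)) _)))
  refine t1.trans (le_of_eq ?_)
  ring

/-- the lower estimate in the domain -/
theorem window_low {Q : Type} [NormedAddCommGroup Q] [NormedSpace ℝ Q]
    (π : StrongDual ℝ (StrongDual ℝ X) →ₗ[ℝ] Q) (hπJ : ∀ x, π (JJ X x) = 0)
    (hπ : ∀ z, ‖π z‖ ≤ ‖z‖) {U : UB X} (hU : IsB U) {a : StrongDual ℝ (StrongDual ℝ X)}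
    (ha : Wk U a) : ‖π a‖ ≤ nf (U + U.map ng) 0 := by
  have hUn : IsB (U.map ng) := by
    obtain ⟨ρ, h⟩ := hU
    exact h.ng.isB
  rw [nf_conv hU hUn, ← lm_const U ‖π a‖]
  refine lm_mono (Bf.const U _) (nf_bf hU hUn 0) (Filter.Eventually.of_forall fun x => ?_)
  have h1 : ‖π a‖ ≤ ‖JJ X x - a‖ := by
    have h2 := hπ (JJ X x - a)
    have h3 : π (JJ X x - a) = -(π a) := by
      have : π (JJ X x - a) = π (JJ X x) - π a := map_sub π _ _
      rw [this, hπJ, zero_sub]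
    rwa [h3, norm_neg] at h2
  refine h1.trans ?_
  refine norm_le_of_forall (nf_nonneg hUn _) fun φ hφ => ?_
  have h4 : Tendsto (fun y => φ (0 + x) + φ y) ((U.map ng).u : Filter X)
      (𝓝 (φ (0 + x) + (-a) φ)) := (ha.ng φ).const_add _
  have h5 : Tendsto (fun y => ‖0 + x + y‖) ((U.map ng).u : Filter X)
      (𝓝 (nf (U.map ng) (0 + x))) := lm_spec (hUn.bf_norm (0 + x))
  have h6 : (JJ X x - a) φ = φ (0 + x) + (-a) φ := by
    rw [zero_add]
    show φ x - a φ = φ x + -(a φ)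
    ring
  rw [h6]
  refine le_of_tendsto_of_tendsto h4 h5 (Filter.Eventually.of_forall fun y => ?_)
  show φ (0 + x) + φ y ≤ ‖0 + x + y‖
  rw [← map_add]
  refine (le_abs_self _).trans ((φ.le_opNorm _).trans ?_)
  calc ‖φ‖ * ‖0 + x + y‖ ≤ 1 * ‖0 + x + y‖ := by gcongr
    _ = _ := one_mul _

/-- the lower estimate in the quotient -/
theorem quot_low {Q : Type} [NormedAddCommGroup Q] [NormedSpace ℝ Q] {q : ℕ → Q} {N K W ns : ℕ}
    {β κ : ℝ} (hns : N + K + W ≤ ns) (hβ : 0 ≤ β)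
    (h1 : ∀ i ≤ ns, ‖q (i + 1) - q i‖ ≤ β) (h2 : 1 - κ ≤ ‖q N - q (N + W)‖) :
    K * (1 - κ) - 2 * (K * (K * β)) ≤ ‖∑ i ∈ Finset.range K, (q (N + i) - q (N + i + W))‖ := by
  have h3 : ∀ (a i : ℕ), a + i ≤ ns + 1 → ‖q (a + i) - q a‖ ≤ i * β := by
    intro a i
    induction i with
    | zero => intro _; simp
    | succ i ih =>
      intro hi
      have h4 := ih (by omega)
      have h5 := h1 (a + i) (by omega)
      have e : q (a + (i + 1)) - q a = (q (a + i + 1) - q (a + i)) + (q (a + i) - q a) := by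
        rw [show a + (i + 1) = a + i + 1 by ring]
        abel
      rw [e]
      refine (norm_add_le _ _).trans ?_
      push_cast
      linarith
  have h6 : ∑ i ∈ Finset.range K, (q (N + i) - q (N + i + W)) = (K : ℝ) • (q N - q (N + W)) -
      ∑ i ∈ Finset.range K, ((q (N + W + i) - q (N + W)) - (q (N + i) - q N)) := by
    have h7 : (K : ℝ) • (q N - q (N + W)) = ∑ i ∈ Finset.range K, (q N - q (N + W)) := by
      rw [Finset.sum_const, Finset.card_range, Nat.cast_smul_eq_nsmul]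
    rw [h7, ← Finset.sum_sub_distrib]
    refine Finset.sum_congr rfl fun i _ => ?_
    rw [show N + i + W = N + W + i by ring]
    abel
  have h8 : ‖∑ i ∈ Finset.range K, ((q (N + W + i) - q (N + W)) - (q (N + i) - q N))‖ ≤
      2 * (K * (K * β)) := by
    refine (norm_sum_le _ _).trans ?_
    have h9 : ∀ i ∈ Finset.range K,
        ‖(q (N + W + i) - q (N + W)) - (q (N + i) - q N)‖ ≤ 2 * (K * β) := by
      intro i hi
      rw [Finset.mem_range] at hi
      have h10 := h3 (N + W) i (by omega)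
      have h11 := h3 N i (by omega)
      have h12 : (i : ℝ) * β ≤ K * β := by
        have : (i : ℝ) ≤ K := by exact_mod_cast hi.le
        gcongr
      refine (norm_sub_le _ _).trans ?_
      linarith
    refine (Finset.sum_le_sum h9).trans (le_of_eq ?_)
    rw [Finset.sum_const, Finset.card_range, nsmul_eq_mul]
    ring
  rw [h6]
  have h13 := norm_sub_norm_le ((K : ℝ) • (q N - q (N + W)))
    (∑ i ∈ Finset.range K, ((q (N + W + i) - q (N + W)) - (q (N + i) - q N)))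
  rw [norm_smul, Real.norm_of_nonneg (Nat.cast_nonneg K)] at h13
  have h14 : (K : ℝ) * (1 - κ) ≤ K * ‖q N - q (N + W)‖ := by gcongr
  linarith

end

end Pool.Agent.W696.QR
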