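import Mathlib
import Pool.Agent.W696.QR.Slow
import Pool.Agent.W696.QR.Window

/-!
The contradiction.
-/
set_option autoImplicit false
set_option linter.unusedSectionVars false
open Filter Topology

namespace Pool.Agent.W696.QR

section

variable {X Y : Type} [NormedAddCommGroup X] [NormedSpace ℝ X] [NormedAddCommGroup Y]
  [NormedSpace ℝ Y] {F : X → Y} {B C : ℝ}

/-- the image of the drift in the quotient -/
lemma pi_drift {Q : Type} [NormedAddCommGroup Q] [NormedSpace ℝ Q]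
    (π : StrongDual ℝ (StrongDual ℝ X) →ₗ[ℝ] Q) (w : ℕ → StrongDual ℝ (StrongDual ℝ X))
    (q : ℕ → Q) {N K W : ℕ} (hq : ∀ i, i ≤ N + K + W → π (w i) = q i) {c : ℕ → ℝ} {s : ℝ}
    (hc : ∀ i, N ≤ i → i < N + K → c i = s) :
    π (∑ i ∈ Finset.range K, c (N + i) • (w (N + i) + -(w (N + i + W)))) =
      s • ∑ i ∈ Finset.range K, (q (N + i) - q (N + i + W)) := by
  rw [map_sum, Finset.smul_sum]
  refine Finset.sum_congr rfl fun i hi => ?_
  rw [Finset.mem_range] at hi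
  have h1 : π (c (N + i) • (w (N + i) + -(w (N + i + W)))) =
      c (N + i) • (π (w (N + i)) + -(π (w (N + i + W)))) := by
    have h2 := map_smul π (c (N + i)) (w (N + i) + -(w (N + i + W)))
    have h3 := map_add π (w (N + i)) (-(w (N + i + W)))
    have h4 := map_neg π (w (N + i + W))
    rw [h4] at h3
    rw [h3] at h2
    exact h2
  rw [h1, hq _ (by omega), hq _ (by omega), hc _ (by omega) (by omega), sub_eq_add_neg]

/-- the main inequality for one scale -/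
theorem main_ineq (hF : CLU F B C) {A : ℝ} (hA : 0 < A)
    (hl : ∀ u v, ‖u - v‖ / A - C ≤ ‖F u - F v‖) (d : Dec Y) {ε R : ℝ} (hε : 0 ≤ ε)
    (hR : 0 ≤ R) (hAu : AusC Y ε R) {ε₀ R₀ : ℝ} (hε₀ : 0 ≤ ε₀) (hR₀ : 0 ≤ R₀)
    (hAu₀ : AusC Y ε₀ R₀) {Q : Type} [NormedAddCommGroup Q] [NormedSpace ℝ Q]
    (π : StrongDual ℝ (StrongDual ℝ X) →ₗ[ℝ] Q) (hπJ : ∀ x, π (JJ X x) = 0)
    (hπ : ∀ z, ‖π z‖ ≤ ‖z‖) (law : Q → UB X) (w : Q → StrongDual ℝ (StrongDual ℝ X))
    (hlaw : ∀ q, Bd (law q) 5) (hw : ∀ q, Wk (law q) (w q)) (hπw : ∀ q, ‖q‖ ≤ 2 → π (w q) = q)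
    (hQ : ¬ FiniteDimensional ℝ Q) (hseq : S_seq) {K m W N : ℕ} (hK : 1 ≤ K)
    (hW : W = 2 * (20 * K)) (hN : N = (m + 1) * (2 * W)) {M : ℝ}
    (hM : M = 2 * (W * 5) + 2 * (A * ((R₀ + (m + 1) * ε₀) * (d.kP * (8 * B * (2 * (W * 5)))))))
    {s : ℝ} (hs : 0 < s) :
    s * (K / 2) / A - C ≤
      R * (d.kP * (2 * (2 * B * (s * (2 * 5)) + C))) +
        (((2 * N + K : ℕ) : ℝ) + K) * (ε * (d.kP * (2 * (2 * B * (s * (2 * 5)) + C)))) +
        2 * K * (d.kσ * (d.kQ * (B * (2 * (s / N * M)) + C) + 2 * 1)) := by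
  have hB := hF.hB
  have hC := hF.hC
  have hP := d.hP0
  have hQ0 := d.hQ0
  have hσ := d.hσ0
  have hN0 : 0 < N := by
    rw [hN, hW]
    positivity
  have hKr : (1 : ℝ) ≤ K := by exact_mod_cast hK
  have hM0 : 0 ≤ M := by
    rw [hM]
    positivity
  set κ : ℝ := 1 / (30 * K) with hκ
  have hκ0 : 0 < κ := by positivity
  obtain ⟨ν, hν1, hν2⟩ := hseq Q hQ (20 * K) (2 * N + K + W) (by omega) κ hκ0
  have hMb : ∀ (q : ℕ → Q) (a : ℕ), nf (UB.ch (St (fun i => law (q i)) W) a N) 0 ≤ M := by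
    intro q a
    rw [hM, hN]
    exact diff_lin hF hA hl d hε₀ hR₀ hAu₀ (fun i => hlaw (q i)) (fun i => hw (q i)) W a m
  have hsl := slow law hlaw d hF W hs.le hN0 hMb ν le_rfl hν2 (κ := 1) one_pos
  obtain ⟨q, hq1, hq2⟩ := (hν1.and hsl).exists
  set c := tz s N K with hc
  set p : ℕ → UB X := fun i => law (q i) with hp
  have hpb : ∀ i, Bd (p i) 5 := fun i => hlaw (q i)
  have hG : ∀ i, Bd (Gc p W c i) (s * (2 * 5)) := Gc_bd hpb W (tz_abs hs.le hN0)
  have hup := window_up hF hA hl d hε hR hAu hG (N := N) (K := K) (n := 2 * N + K) (by omega)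
    (θ := d.kQ * (B * (2 * (s / N * M)) + C) + 2 * 1) (by positivity) (fun j h1 h2 => by
      exact hq2 j (by rw [Finset.mem_range]; omega))
  refine le_trans ?_ hup
  have hwk : ∀ i, Wk (Gc p W c i) (c i • (w (q i) + -(w (q (i + W))))) := fun i =>
    ((hw (q i)).add (hw (q (i + W))).ng).smul (c i)
  have hlow := window_low π hπJ hπ (IsB.ch (fun i => (hG i).isB) N K) (Wk.ch hwk N K)
  have hpi := pi_drift π (fun i => w (q i)) q (N := N) (K := K) (W := W) (c := c) (s := s)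
    (fun i hi => hπw _ (by
      have h3 := (hq1 i (by omega)).1
      have h4 : κ ≤ 1 := by
        rw [hκ, div_le_one (by positivity)]
        linarith
      linarith)) (fun i h1 h2 => tz_mid hN0 h1 (by omega))
  rw [hpi, norm_smul, Real.norm_of_nonneg hs.le] at hlow
  have hq3 := quot_low (q := q) (N := N) (K := K) (W := W) (ns := 2 * N + K + W)
    (β := 4 / ((20 * K : ℕ) : ℝ) + κ) (κ := κ) (by omega) (by positivity)
    (fun i hi => (hq1 i hi).2.1) (by
      have := (hq1 N (by omega)).2.2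
      rwa [← hW] at this)
  have h5 : (K : ℝ) / 2 ≤ K * (1 - κ) - 2 * (K * (K * (4 / ((20 * K : ℕ) : ℝ) + κ))) := by
    rw [hκ]
    push_cast
    have h6 : (K : ℝ) * (1 - 1 / (30 * K)) - 2 * (K * (K * (4 / (20 * K) + 1 / (30 * K)))) =
        K * (8 / 15) - 1 / 30 := by
      field_simp
      ring
    rw [h6]
    linarith
  have h7 : s * (K / 2) ≤ nf (UB.ch (Gc p W c) N K + (UB.ch (Gc p W c) N K).map ng) 0 := by
    refine le_trans ?_ hlow
    have := h5.trans hq3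
    gcongr
  have h8 := div_le_div_of_nonneg_right h7 hA.le
  linarith

/-- **The contradiction.** -/
theorem contra (hF : CLU F B C) {A : ℝ} (hA : 0 < A)
    (hl : ∀ u v, ‖u - v‖ / A - C ≤ ‖F u - F v‖) (d : Dec Y)
    (hAu : ∀ ε : ℝ, 0 < ε → ∃ R : ℝ, 0 < R ∧ AusC Y ε R)
    {Q : Type} [NormedAddCommGroup Q] [NormedSpace ℝ Q]
    (π : StrongDual ℝ (StrongDual ℝ X) →ₗ[ℝ] Q) (hπJ : ∀ x, π (JJ X x) = 0)
    (hπ : ∀ z, ‖π z‖ ≤ ‖z‖) (law : Q → UB X) (w : Q → StrongDual ℝ (StrongDual ℝ X))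
    (hlaw : ∀ q, Bd (law q) 5) (hw : ∀ q, Wk (law q) (w q)) (hπw : ∀ q, ‖q‖ ≤ 2 → π (w q) = q)
    (hQ : ¬ FiniteDimensional ℝ Q) (hseq : S_seq) : False := by
  have hB := hF.hB
  have hC := hF.hC
  have hP := d.hP0
  have hQ0 := d.hQ0
  have hσ := d.hσ0
  -- the constants
  set E : ℝ := 32 * A * d.kσ * d.kQ * B + 1 with hE
  have hE0 : 0 < E := by positivity
  set D : ℝ := 80 * A * d.kP * B with hD
  have hD0 : 0 ≤ D := by positivity
  set ε₀ : ℝ := 1 / (2 * (D + 1) * E) with hε₀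
  have hε₀0 : 0 < ε₀ := by positivity
  obtain ⟨R₀, hR₀, hAu₀⟩ := hAu ε₀ hε₀0
  obtain ⟨m, hm⟩ := exists_nat_ge (2 * E * (5 + D * R₀))
  set b : ℝ := 40 * d.kP * B with hb
  have hb0 : 0 ≤ b := by positivity
  set ε : ℝ := 1 / (8 * A * (b * (160 * (m + 1) + 2) + 1)) with hε
  have hε0 : 0 < ε := by positivity
  obtain ⟨R, hR, hAu1⟩ := hAu ε hε0
  obtain ⟨K, hKb⟩ := exists_nat_ge (8 * A * b * R + 1)
  have hK1 : (1 : ℝ) ≤ K := by
    refine le_trans ?_ hKb
    have : 0 ≤ 8 * A * b * R := by positivity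
    linarith
  have hK : 1 ≤ K := by exact_mod_cast hK1
  set W : ℕ := 2 * (20 * K) with hW
  set N : ℕ := (m + 1) * (2 * W) with hN
  set M : ℝ := 2 * (W * 5) + 2 * (A * ((R₀ + (m + 1) * ε₀) * (d.kP * (8 * B * (2 * (W * 5))))))
    with hM
  have hNr : (N : ℝ) = (m + 1) * (80 * K) := by
    rw [hN, hW]
    push_cast
    ring
  have hWr : (W : ℝ) = 40 * K := by
    rw [hW]
    push_cast
    ring
  have hη : M / N ≤ 1 / E := by
    have h1 : M / N = (5 + D * R₀) / (m + 1) + D * ε₀ := by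
      rw [hM, hNr, hWr, hD]
      field_simp
      ring
    have h2 : (5 + D * R₀) / (m + 1) ≤ 1 / (2 * E) := by
      rw [div_le_div_iff₀ (by positivity) (by positivity)]
      nlinarith
    have h3 : D * ε₀ ≤ 1 / (2 * E) := by
      rw [hε₀, mul_one_div, div_le_div_iff₀ (by positivity) (by positivity)]
      nlinarith
    have h4 : 1 / (2 * E) + 1 / (2 * E) = 1 / E := by
      field_simp
      ring
    linarith
  -- coefficients
  have k1 : b * R ≤ K / (8 * A) := by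
    rw [le_div_iff₀ (by positivity)]
    linarith
  have k2 : (((2 * N + K : ℕ) : ℝ) + K) * (ε * b) ≤ K / (8 * A) := by
    have h1 : (((2 * N + K : ℕ) : ℝ) + K) = (160 * (m + 1) + 2) * K := by
      push_cast
      rw [hNr]
      ring
    rw [h1, hε]
    have h2 : (160 * ((m : ℝ) + 1) + 2) * K * (1 / (8 * A * (b * (160 * (m + 1) + 2) + 1)) * b) =
        K / (8 * A) * ((b * (160 * (m + 1) + 2)) / (b * (160 * (m + 1) + 2) + 1)) := by
      field_simp
    rw [h2]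
    have h3 : (b * (160 * ((m : ℝ) + 1) + 2)) / (b * (160 * (m + 1) + 2) + 1) ≤ 1 := by
      rw [div_le_one (by positivity)]
      linarith
    have h4 : 0 ≤ (K : ℝ) / (8 * A) := by positivity
    nlinarith
  have k3 : 4 * K * (d.kσ * (d.kQ * (B * (M / N)))) ≤ K / (8 * A) := by
    have h1 : 4 * K * (d.kσ * (d.kQ * (B * (M / N)))) ≤
        4 * K * (d.kσ * (d.kQ * (B * (1 / E)))) := by gcongr
    refine h1.trans ?_
    rw [mul_one_div, ← mul_div_assoc, ← mul_div_assoc, ← mul_div_assoc,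
      div_le_div_iff₀ hE0 (by positivity)]
    have h2 : (K : ℝ) * E = 4 * K * (d.kσ * (d.kQ * B)) * (8 * A) + K := by
      rw [hE]
      ring
    rw [h2]
    linarith
  set n' : ℝ := ((2 * N + K : ℕ) : ℝ) + K with hn'
  have hn'0 : 0 ≤ n' := by positivity
  set β : ℝ := C + (R + n' * ε) * (d.kP * (2 * C)) + 2 * K * (d.kσ * (d.kQ * C + 2)) with hβ
  have hβ0 : 0 ≤ β := by positivity
  have hs : 0 < (β + 1) * (8 * A) / K := by positivity
  have key := main_ineq hF hA hl d hε0.le hR.le hAu1 hε₀0.le hR₀.le hAu₀ π hπJ hπ law w hlaw hw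
    hπw hQ hseq hK hW hN hM hs
  set s : ℝ := (β + 1) * (8 * A) / K with hs'
  have e1 : R * (d.kP * (2 * (2 * B * (s * (2 * 5)) + C))) + n' * (ε * (d.kP *
      (2 * (2 * B * (s * (2 * 5)) + C)))) + 2 * K * (d.kσ * (d.kQ * (B * (2 * (s / N * M)) + C) +
        2 * 1)) = s * (b * R) + s * (n' * (ε * b)) + s * (4 * K * (d.kσ * (d.kQ * (B * (M / N))))) +
        (β - C) := by
    rw [hβ, hb]
    ring
  rw [e1] at key
  have e2 : s * (K / 2) / A = s * (4 * (K / (8 * A))) := by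
    field_simp
    ring
  rw [e2] at key
  have e3 : s * (K / (8 * A)) = β + 1 := by
    rw [hs']
    field_simp
  have m1 := mul_le_mul_of_nonneg_left k1 hs.le
  have m2 := mul_le_mul_of_nonneg_left k2 hs.le
  have m3 := mul_le_mul_of_nonneg_left k3 hs.le
  linarith

end

end Pool.Agent.W696.QR
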