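import Mathlib
import Pool.Agent.W696.QR.Main

/-!
The quotient by an isometric copy of a complete space.
-/
set_option autoImplicit false
set_option linter.unusedSectionVars false
open Filter Topology

namespace Pool.Agent.W696.QR

/-- the quotient -/
theorem quot_exists {X E : Type} [NormedAddCommGroup X] [NormedSpace ℝ X] [CompleteSpace X]
    [NormedAddCommGroup E] [NormedSpace ℝ E] (J : X →ₗᵢ[ℝ] E) :
    ∃ (Q : Type) (_ : NormedAddCommGroup Q) (_ : NormedSpace ℝ Q) (π : E →ₗ[ℝ] Q),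
      (∀ x, π (J x) = 0) ∧ (∀ z, ‖π z‖ ≤ ‖z‖) ∧ (∀ q, ∃ z, π z = q ∧ ‖z‖ ≤ ‖q‖ + 1) ∧
      (FiniteDimensional ℝ Q → ∃ n : ℕ, ∃ ψ : Fin n → E, ∀ z : E, ∃ x : X, ∃ c : Fin n → ℝ,
        z = J x + ∑ i, c i • ψ i) := by
  set S : Submodule ℝ E := LinearMap.range J.toLinearMap with hS
  have hcl : IsClosed (S : Set E) := by
    have h1 : (S : Set E) = Set.range J := by
      rw [hS]
      rfl
    rw [h1]
    exact J.isometry.isClosedEmbedding.isClosed_range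
  haveI : IsClosed (S : Set E) := hcl
  refine ⟨E ⧸ S, inferInstance, inferInstance, S.mkQ, ?_, ?_, ?_, ?_⟩
  · intro x
    rw [Submodule.mkQ_apply, Submodule.Quotient.mk_eq_zero]
    exact ⟨x, rfl⟩
  · intro z
    exact Submodule.Quotient.norm_mk_le S z
  · intro q
    obtain ⟨z, hz1, hz2⟩ := Submodule.Quotient.norm_mk_lt q one_pos
    exact ⟨z, hz1, hz2.le⟩
  · intro hfd
    let b := Module.finBasis ℝ (E ⧸ S)
    choose ψ hψ using fun i => Submodule.mkQ_surjective S (b i)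
    refine ⟨_, ψ, fun z => ?_⟩
    have h1 : S.mkQ (z - ∑ i, b.repr (S.mkQ z) i • ψ i) = 0 := by
      rw [map_sub, map_sum]
      simp only [map_smul, hψ]
      rw [b.sum_repr, sub_self]
    rw [Submodule.mkQ_apply, Submodule.Quotient.mk_eq_zero] at h1
    obtain ⟨x, hx⟩ := h1
    refine ⟨x, fun i => b.repr (S.mkQ z) i, ?_⟩
    have h2 : J x = z - ∑ i, b.repr (S.mkQ z) i • ψ i := hx
    rw [h2]
    abel

/-- bounds for continuous linear maps -/
lemma clm_bound {E E' : Type} [NormedAddCommGroup E] [NormedSpace ℝ E] [NormedAddCommGroup E']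
    [NormedSpace ℝ E'] (T : E →L[ℝ] E') : ∃ k : ℝ, 0 ≤ k ∧ ∀ z, ‖T z‖ ≤ k * ‖z‖ :=
  ⟨‖T‖, norm_nonneg _, fun z => T.le_opNorm z⟩

/-- **The contradiction**, final form. -/
theorem final {X Y : Type} [NormedAddCommGroup X] [NormedSpace ℝ X] [NormedAddCommGroup Y]
    [NormedSpace ℝ Y] {F : X → Y} {B C : ℝ} (hF : CLU F B C) {A : ℝ} (hA : 0 < A)
    (hl : ∀ u v, ‖u - v‖ / A - C ≤ ‖F u - F v‖) (d : Dec Y)
    (hAu : ∀ ε : ℝ, 0 < ε → ∃ R : ℝ, 0 < R ∧ AusC Y ε R)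
    {Q : Type} [NormedAddCommGroup Q] [NormedSpace ℝ Q]
    (π : StrongDual ℝ (StrongDual ℝ X) →ₗ[ℝ] Q) (hπJ : ∀ x, π (JJ X x) = 0)
    (hπ : ∀ z, ‖π z‖ ≤ ‖z‖) (hlift : ∀ q, ∃ z, π z = q ∧ ‖z‖ ≤ ‖q‖ + 1)
    (hQ : ¬ FiniteDimensional ℝ Q) (hseq : S_seq)
    (hgold : ∀ a : StrongDual ℝ (StrongDual ℝ X),
      ∃ U : Ultrafilter X, (∀ᶠ x in (U : Filter X), ‖x‖ ≤ ‖a‖ + 1) ∧
      ∀ φ : StrongDual ℝ X, Tendsto (fun x => φ x) (U : Filter X) (𝓝 (a φ))) : False := by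
  classical
  choose lf hlf1 hlf2 using hlift
  choose U hU1 hU2 using hgold
  set w : Q → StrongDual ℝ (StrongDual ℝ X) := fun q => if ‖q‖ ≤ 2 then lf q else 0 with hw
  have hw1 : ∀ q, ‖w q‖ ≤ 4 := by
    intro q
    by_cases h : ‖q‖ ≤ 2
    · have e : w q = lf q := if_pos h
      rw [e]
      exact (hlf2 q).trans (by linarith)
    · have e : w q = 0 := if_neg h
      rw [e]
      have : ‖(0 : StrongDual ℝ (StrongDual ℝ X))‖ = 0 :=
        norm_zero (E := StrongDual ℝ (StrongDual ℝ X))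
      rw [this]
      norm_num
  have hw2 : ∀ q, ‖q‖ ≤ 2 → π (w q) = q := by
    intro q hq
    have e : w q = lf q := if_pos hq
    rw [e, hlf1]
  refine contra hF hA hl d hAu π hπJ hπ (fun q => ⟨U (w q)⟩) w (fun q => ?_)
    (fun q φ => hU2 (w q) φ) hw2 hQ hseq
  unfold Bd
  filter_upwards [hU1 (w q)] with x hx
  have := hw1 q
  linarith

end Pool.Agent.W696.QR
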